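import Mathlib

/-!
MP_8ef934_nt (helper40): a weighted norm for (truncated) power series with integer coefficients.
-/

set_option autoImplicit false

namespace Pool.Agent.W8ef934h40

open PowerSeries

/-- the weighted norm of the first `J` coefficients -/
noncomputable def nrm (r : ℝ) (J : ℕ) (f : ℤ⟦X⟧) : ℝ :=
  ∑ j ∈ Finset.range J, |((coeff j f : ℤ) : ℝ)| * r ^ j

theorem nrm_nonneg {r : ℝ} (hr : 0 ≤ r) (J : ℕ) (f : ℤ⟦X⟧) : 0 ≤ nrm r J f :=
  Finset.sum_nonneg fun _ _ => by positivity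

theorem nrm_mul {r : ℝ} (hr : 0 ≤ r) (J : ℕ) (f g : ℤ⟦X⟧) :
    nrm r J (f * g) ≤ nrm r J f * nrm r J g := by
  unfold nrm
  rw [Finset.sum_mul_sum, ← Finset.sum_product']
  have h1 : ∀ j ∈ Finset.range J, |((coeff j (f * g) : ℤ) : ℝ)| * r ^ j ≤
      ∑ p ∈ Finset.HasAntidiagonal.antidiagonal j, (|((coeff p.1 f : ℤ) : ℝ)| * r ^ p.1) *
        (|((coeff p.2 g : ℤ) : ℝ)| * r ^ p.2) := by
    intro j _
    rw [PowerSeries.coeff_mul]
    push_cast
    calc |∑ p ∈ Finset.HasAntidiagonal.antidiagonal j, ((coeff p.1 f : ℤ) : ℝ) * ((coeff p.2 g : ℤ) : ℝ)| * r ^ j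
        ≤ (∑ p ∈ Finset.HasAntidiagonal.antidiagonal j, |((coeff p.1 f : ℤ) : ℝ) * ((coeff p.2 g : ℤ) : ℝ)|) * r ^ j :=
          mul_le_mul_of_nonneg_right (Finset.abs_sum_le_sum_abs _ _) (by positivity)
      _ = ∑ p ∈ Finset.HasAntidiagonal.antidiagonal j, (|((coeff p.1 f : ℤ) : ℝ)| * r ^ p.1) *
        (|((coeff p.2 g : ℤ) : ℝ)| * r ^ p.2) := by
          rw [Finset.sum_mul]
          refine Finset.sum_congr rfl fun p hp => ?_
          rw [Finset.HasAntidiagonal.mem_antidiagonal] at hp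
          rw [abs_mul, ← hp, pow_add]
          ring
  refine (Finset.sum_le_sum h1).trans ?_
  set s : Finset (ℕ × ℕ) := (Finset.range J ×ˢ Finset.range J).filter (fun p => p.1 + p.2 < J) with hs
  have h2 : ∑ j ∈ Finset.range J, ∑ p ∈ Finset.HasAntidiagonal.antidiagonal j, (|((coeff p.1 f : ℤ) : ℝ)| * r ^ p.1) *
        (|((coeff p.2 g : ℤ) : ℝ)| * r ^ p.2) =
      ∑ p ∈ s, (|((coeff p.1 f : ℤ) : ℝ)| * r ^ p.1) * (|((coeff p.2 g : ℤ) : ℝ)| * r ^ p.2) := by
    rw [← Finset.sum_fiberwise_of_maps_to (s := s) (t := Finset.range J) (g := fun p => p.1 + p.2)]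
    · refine Finset.sum_congr rfl fun j hj => Finset.sum_congr ?_ fun _ _ => rfl
      ext p
      rw [Finset.mem_range] at hj
      simp only [hs, Finset.HasAntidiagonal.mem_antidiagonal, Finset.mem_filter, Finset.mem_product, Finset.mem_range]
      omega
    · intro p hp
      simp only [hs, Finset.mem_filter] at hp
      exact Finset.mem_range.2 hp.2
  rw [h2]
  exact Finset.sum_le_sum_of_subset_of_nonneg (Finset.filter_subset _ _) fun _ _ _ => by positivity

theorem nrm_sub {r : ℝ} (hr : 0 ≤ r) (J : ℕ) (f g : ℤ⟦X⟧) :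
    nrm r J (f - g) ≤ nrm r J f + nrm r J g := by
  unfold nrm
  rw [← Finset.sum_add_distrib]
  refine Finset.sum_le_sum fun j _ => ?_
  rw [← add_mul]
  refine mul_le_mul_of_nonneg_right ?_ (by positivity)
  rw [map_sub]
  push_cast
  exact abs_sub _ _

theorem nrm_one (r : ℝ) (J : ℕ) : nrm r J 1 ≤ 1 := by
  unfold nrm
  rcases Nat.eq_zero_or_pos J with h | h
  · subst h; simp
  rw [Finset.sum_eq_single 0]
  · simp
  · intro j _ hj
    simp [PowerSeries.coeff_one, hj]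
  · intro h0
    exact absurd (Finset.mem_range.2 h) h0

theorem nrm_prod {r : ℝ} (hr : 0 ≤ r) (J : ℕ) {ι : Type} (I : Finset ι) (f : ι → ℤ⟦X⟧) :
    nrm r J (∏ i ∈ I, f i) ≤ ∏ i ∈ I, nrm r J (f i) := by
  classical
  induction I using Finset.induction_on with
  | empty => simpa using nrm_one r J
  | insert a s ha ih =>
    rw [Finset.prod_insert ha, Finset.prod_insert ha]
    exact (nrm_mul hr J _ _).trans (mul_le_mul_of_nonneg_left ih (nrm_nonneg hr J _))

theorem coeff_le_nrm {r : ℝ} (hr : 0 ≤ r) {J : ℕ} (f : ℤ⟦X⟧) {j : ℕ} (hj : j < J) :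
    |((coeff j f : ℤ) : ℝ)| * r ^ j ≤ nrm r J f :=
  Finset.single_le_sum (f := fun j => |((coeff j f : ℤ) : ℝ)| * r ^ j) (fun _ _ => by positivity)
    (Finset.mem_range.2 hj)

theorem nrm_mono {r : ℝ} (hr : 0 ≤ r) {J J' : ℕ} (h : J ≤ J') (f : ℤ⟦X⟧) :
    nrm r J f ≤ nrm r J' f :=
  Finset.sum_le_sum_of_subset_of_nonneg (Finset.range_mono h) fun _ _ _ => by positivity

/-- a polynomial obtained by truncation has a smaller norm -/
theorem nrm_trunc {r : ℝ} (hr : 0 ≤ r) (J m : ℕ) (f : ℤ⟦X⟧) :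
    nrm r J (trunc m f : ℤ⟦X⟧) ≤ nrm r m f := by
  unfold nrm
  calc ∑ j ∈ Finset.range J, |((coeff j (trunc m f : ℤ⟦X⟧) : ℤ) : ℝ)| * r ^ j
      = ∑ j ∈ (Finset.range J).filter (fun j => j < m), |((coeff j f : ℤ) : ℝ)| * r ^ j := by
        rw [Finset.sum_filter]
        refine Finset.sum_congr rfl fun j _ => ?_
        rw [Polynomial.coeff_coe, PowerSeries.coeff_trunc]
        split_ifs <;> simp
    _ ≤ _ := by
        refine Finset.sum_le_sum_of_subset_of_nonneg ?_ fun _ _ _ => by positivity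
        intro j hj
        rw [Finset.mem_filter] at hj
        exact Finset.mem_range.2 hj.2

end Pool.Agent.W8ef934h40
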