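import Mathlib
import Pool.Agent.W_8ef934_h40.Nrm

/-!
MP_8ef934_nt (helper40): Padé type approximations by Siegel's lemma.
-/

set_option autoImplicit false

namespace Pool.Agent.W8ef934h40

open PowerSeries

section
attribute [local instance] Matrix.seminormedAddCommGroup

theorem siegel' {m n : ℕ} (A : Matrix (Fin m) (Fin n) ℤ) (hm : 0 < m) (hmn : m < n) (D : ℝ) (hD : 1 ≤ D)
    (hA : ∀ i j, |((A i j : ℤ) : ℝ)| ≤ D) (r : ℕ) (hr : (m : ℝ) / (n - m) ≤ r) :
    ∃ t : Fin n → ℤ, t ≠ 0 ∧ A.mulVec t = 0 ∧ ∀ j, |((t j : ℤ) : ℝ)| ≤ ((n : ℝ) * D) ^ r := by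
  obtain ⟨t, ht0, htA, ht⟩ := Int.Matrix.exists_ne_zero_int_vec_norm_le A
    (by simpa using hmn) (by simpa using hm)
  refine ⟨t, ht0, htA, fun j => ?_⟩
  have h1 : ‖t j‖ ≤ ‖t‖ := norm_le_pi_norm t j
  rw [Int.norm_eq_abs] at h1
  refine h1.trans (ht.trans ?_)
  simp only [Fintype.card_fin]
  have hAn : ‖A‖ ≤ D := by
    rw [Matrix.norm_le_iff (by linarith)]
    intro i j
    rw [Int.norm_eq_abs]
    exact hA i j
  have hmax : max 1 ‖A‖ ≤ D := max_le hD hAn
  have hn1 : (1 : ℝ) ≤ n := by exact_mod_cast (by omega : 1 ≤ n)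
  have hnm : (0 : ℝ) < (n : ℝ) - m := by
    have : (m : ℝ) < n := by exact_mod_cast hmn
    linarith
  calc ((n : ℝ) * max 1 ‖A‖) ^ ((m : ℝ) / ((n : ℝ) - m)) ≤ ((n : ℝ) * D) ^ ((m : ℝ) / ((n : ℝ) - m)) := by
        refine Real.rpow_le_rpow (by positivity) ?_ (by positivity)
        exact mul_le_mul_of_nonneg_left hmax (by linarith)
    _ ≤ ((n : ℝ) * D) ^ (r : ℝ) := by
        refine Real.rpow_le_rpow_of_exponent_le ?_ hr
        nlinarith
    _ = ((n : ℝ) * D) ^ r := Real.rpow_natCast _ _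

end

/-- Padé type approximation -/
theorem pade (f : ℤ⟦X⟧) (k r : ℕ) (hk : 1 ≤ k) (hr : 2 ≤ r) (D : ℝ) (hD : 1 ≤ D)
    (hf : ∀ j < k * (2 * r - 1) + 1, |((coeff j f : ℤ) : ℝ)| ≤ D) :
    ∃ B : Polynomial ℤ, B ≠ 0 ∧ (∀ j, k * r < j → B.coeff j = 0) ∧
      (∀ j, |((B.coeff j : ℤ) : ℝ)| ≤ (((k * r + 1 : ℕ) : ℝ) * D) ^ r) ∧
      ∀ j, k * r < j → j < k * (2 * r - 1) + 1 → coeff j ((B : ℤ⟦X⟧) * f) = 0 := by
  have e1 : k * (2 * r - 1) = k * r + k * (r - 1) := by
    rw [← mul_add]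
    congr 1
    omega
  have e2 : k * (r - 1) + k = k * r := by
    obtain ⟨r', rfl⟩ : ∃ r', r = r' + 1 := ⟨r - 1, by omega⟩
    simp
    ring
  have hpos : 0 < k * (r - 1) := Nat.mul_pos (by omega) (by omega)
  obtain ⟨t, ht0, htA, ht⟩ := siegel' (m := k * (r - 1)) (n := k * r + 1)
    (fun i j => coeff (k * r + 1 + (i : ℕ) - (j : ℕ)) f) hpos (by omega) D hD
    (fun i j => hf _ (by have := i.2; omega)) r (by
      have h1 : ((k * r + 1 : ℕ) : ℝ) - ((k * (r - 1) : ℕ) : ℝ) = (k : ℝ) + 1 := by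
        have : ((k * (r - 1) : ℕ) : ℝ) + k = ((k * r : ℕ) : ℝ) := by exact_mod_cast e2
        push_cast at this ⊢
        linarith
      rw [h1, div_le_iff₀ (by positivity)]
      have h2 : ((k * (r - 1) : ℕ) : ℝ) ≤ ((k * r : ℕ) : ℝ) := by
        exact_mod_cast (by omega : k * (r - 1) ≤ k * r)
      push_cast at h2
      push_cast
      have : (0 : ℝ) ≤ r := by positivity
      nlinarith)
  have hc : ∀ j, (∑ i : Fin (k * r + 1), Polynomial.monomial (i : ℕ) (t i)).coeff j =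
      if h : j < k * r + 1 then t ⟨j, h⟩ else 0 := by
    intro j
    rw [Polynomial.finset_sum_coeff]
    simp only [Polynomial.coeff_monomial]
    split_ifs with h
    · rw [Finset.sum_eq_single (⟨j, h⟩ : Fin (k * r + 1))]
      · simp
      · intro b _ hb
        rw [if_neg]
        intro h'
        exact hb (Fin.ext h')
      · intro h'
        exact absurd (Finset.mem_univ _) h'
    · refine Finset.sum_eq_zero fun i _ => ?_
      rw [if_neg]
      have := i.2
      omega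
  refine ⟨∑ i : Fin (k * r + 1), Polynomial.monomial (i : ℕ) (t i), ?_, ?_, ?_, ?_⟩
  · intro h0
    apply ht0
    funext i
    have := hc i
    rw [h0, dif_pos i.2] at this
    simpa using this.symm
  · intro j hj
    rw [hc, dif_neg (by omega)]
  · intro j
    rw [hc]
    split_ifs with h
    · exact ht _
    · simp only [Int.cast_zero, abs_zero]
      positivity
  · intro j hj1 hj2
    rw [PowerSeries.coeff_mul, Finset.Nat.sum_antidiagonal_eq_sum_range_succ_mk]
    simp only [Polynomial.coeff_coe, hc]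
    have h3 := congrFun htA ⟨j - (k * r + 1), by omega⟩
    simp only [Matrix.mulVec, dotProduct, Pi.zero_apply] at h3
    rw [← Finset.sum_subset (s₁ := Finset.range (k * r + 1))]
    · rw [Finset.sum_range]
      rw [← h3]
      refine Finset.sum_congr rfl fun i _ => ?_
      rw [dif_pos i.2, mul_comm]
      congr 3
      omega
    · intro x hx
      rw [Finset.mem_range] at hx ⊢
      omega
    · intro x _ hx
      rw [Finset.mem_range] at hx
      rw [dif_neg hx, zero_mul]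

end Pool.Agent.W8ef934h40
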