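import Mathlib
import Pool.Agent.W_8ef934_h40.Nrm

/-!
MP_8ef934_nt (helper40): the power series `√(1 + 4 n X)` with integer coefficients.
-/

set_option autoImplicit false

namespace Pool.Agent.W8ef934h40

open PowerSeries

/-- the Catalan series over the integers -/
noncomputable def cat : ℤ⟦X⟧ := catalanSeries.map (Nat.castRingHom ℤ)

theorem coeff_cat (j : ℕ) : coeff j cat = (catalan j : ℤ) := by
  unfold cat
  rw [PowerSeries.coeff_map, catalanSeries_coeff]
  rfl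

theorem cat_eq : cat ^ 2 * X + 1 = cat := by
  have h := congrArg (PowerSeries.map (Nat.castRingHom ℤ)) catalanSeries_sq_mul_X_add_one
  rw [map_add, map_mul, map_pow, PowerSeries.map_X, map_one] at h
  exact h

/-- the power series `√(1 + 4 n X)` -/
noncomputable def hs (n : ℕ) : ℤ⟦X⟧ := rescale (-(n : ℤ)) (1 - 2 * (X * cat))

theorem hs_sq (n : ℕ) : hs n ^ 2 = 1 + PowerSeries.C (4 * (n : ℤ)) * X := by
  have h : (1 - 2 * (X * cat)) ^ 2 = 1 - 4 * (X : ℤ⟦X⟧) := by
    linear_combination (4 * (X : ℤ⟦X⟧)) * cat_eq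
  unfold hs
  rw [← map_pow, h]
  ext j
  rw [PowerSeries.coeff_rescale]
  have e : (4 : ℤ⟦X⟧) = PowerSeries.C (4 : ℤ) := by simp
  rw [e, map_sub, map_add, PowerSeries.coeff_C_mul, PowerSeries.coeff_C_mul, PowerSeries.coeff_one,
    PowerSeries.coeff_X]
  by_cases h0 : j = 0
  · subst h0; simp
  · by_cases h1 : j = 1
    · subst h1; simp; ring
    · simp [h0, h1]

theorem coeff_hs_zero (n : ℕ) : coeff 0 (hs n) = 1 := by
  unfold hs
  rw [PowerSeries.coeff_rescale]
  simp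

theorem coeff_hs_succ (n j : ℕ) : coeff (j + 1) (hs n) = (-(n : ℤ)) ^ (j + 1) * (-2 * catalan j) := by
  unfold hs
  rw [PowerSeries.coeff_rescale]
  congr 1
  have e : (2 : ℤ⟦X⟧) = PowerSeries.C (2 : ℤ) := by simp
  rw [e, map_sub, PowerSeries.coeff_C_mul, PowerSeries.coeff_one, PowerSeries.coeff_succ_X_mul, coeff_cat]
  simp

theorem two_catalan_le (j : ℕ) : 2 * catalan j ≤ 4 ^ (j + 1) := by
  have h1 : catalan j ≤ Nat.centralBinom j := by
    rw [← succ_mul_catalan_eq_centralBinom]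
    exact Nat.le_mul_of_pos_left _ (by omega)
  have h2 : Nat.centralBinom j ≤ 4 ^ j := by
    rcases Nat.eq_zero_or_pos j with h | h
    · subst h; simp
    · exact (Nat.centralBinom_lt_four_pow (by omega)).le
  have : 4 ^ (j + 1) = 4 * 4 ^ j := by ring
  omega

theorem coeff_hs_le (n j : ℕ) : |((coeff j (hs n) : ℤ) : ℝ)| ≤ (4 * (n : ℝ)) ^ j := by
  cases j with
  | zero => rw [coeff_hs_zero]; simp
  | succ j =>
    rw [coeff_hs_succ]
    push_cast
    rw [abs_mul, abs_pow, abs_neg, abs_mul, abs_neg, Nat.abs_cast, Nat.abs_cast, mul_pow, mul_comm]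
    refine mul_le_mul_of_nonneg_right ?_ (by positivity)
    have := two_catalan_le j
    have h2 : ((2 * catalan j : ℕ) : ℝ) ≤ ((4 ^ (j + 1) : ℕ) : ℝ) := by exact_mod_cast this
    push_cast at h2
    simpa using h2

theorem nrm_hs {N n : ℕ} (hn : n < N) (J : ℕ) : nrm (1 / (8 * N)) J (hs n) ≤ 2 := by
  have hN : (0 : ℝ) < N := by exact_mod_cast (by omega : 0 < N)
  have hnN : (n : ℝ) ≤ N := by exact_mod_cast hn.le
  unfold nrm
  calc ∑ j ∈ Finset.range J, |((coeff j (hs n) : ℤ) : ℝ)| * (1 / (8 * (N : ℝ))) ^ j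
      ≤ ∑ j ∈ Finset.range J, (1 / 2 : ℝ) ^ j := by
        refine Finset.sum_le_sum fun j _ => ?_
        refine (mul_le_mul_of_nonneg_right (coeff_hs_le n j) (by positivity)).trans ?_
        rw [← mul_pow]
        refine pow_le_pow_left₀ (by positivity) ?_ j
        rw [mul_one_div, div_le_div_iff₀ (by positivity) (by norm_num)]
        nlinarith
    _ ≤ 2 := by
        have h := geom_sum_eq (show (1 / 2 : ℝ) ≠ 1 by norm_num) J
        rw [h]
        have : (0 : ℝ) ≤ (1 / 2) ^ J := by positivity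
        rw [div_le_iff_of_neg (by norm_num)]
        linarith

theorem two_dvd_hs (n : ℕ) : (2 : ℤ⟦X⟧) ∣ hs n - 1 := by
  refine ⟨-(rescale (-(n : ℤ)) (X * cat)), ?_⟩
  unfold hs
  rw [map_sub, map_mul, map_one]
  have : rescale (-(n : ℤ)) (2 : ℤ⟦X⟧) = 2 := by
    have e : (2 : ℤ⟦X⟧) = 1 + 1 := by norm_num
    rw [e, map_add, map_one]
  rw [this]
  ring

/-- the power series `√ ∏ (1 + 4 n X)` -/
noncomputable def ff (I : Finset ℕ) (n : ℕ → ℕ) : ℤ⟦X⟧ := ∏ x ∈ I, hs (n x)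

/-- the polynomial `∏ (1 + 4 n X)` -/
noncomputable def FF (I : Finset ℕ) (n : ℕ → ℕ) : Polynomial ℤ :=
  ∏ x ∈ I, (1 + Polynomial.C (4 * (n x : ℤ)) * Polynomial.X)

theorem coe_prod' (I : Finset ℕ) (g : ℕ → Polynomial ℤ) :
    ((∏ x ∈ I, g x : Polynomial ℤ) : ℤ⟦X⟧) = ∏ x ∈ I, (g x : ℤ⟦X⟧) := by
  classical
  induction I using Finset.induction_on with
  | empty => simp
  | insert a s ha ih => rw [Finset.prod_insert ha, Finset.prod_insert ha, Polynomial.coe_mul, ih]

theorem ff_sq (I : Finset ℕ) (n : ℕ → ℕ) : ff I n ^ 2 = (FF I n : ℤ⟦X⟧) := by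
  unfold ff FF
  rw [← Finset.prod_pow, coe_prod']
  refine Finset.prod_congr rfl fun x _ => ?_
  rw [hs_sq, Polynomial.coe_add, Polynomial.coe_one, Polynomial.coe_mul, Polynomial.coe_C, Polynomial.coe_X]

theorem coeff_ff_zero (I : Finset ℕ) (n : ℕ → ℕ) : coeff 0 (ff I n) = 1 := by
  unfold ff
  rw [PowerSeries.coeff_zero_eq_constantCoeff, map_prod]
  refine Finset.prod_eq_one fun x _ => ?_
  rw [← PowerSeries.coeff_zero_eq_constantCoeff_apply, coeff_hs_zero]

theorem two_dvd_ff (I : Finset ℕ) (n : ℕ → ℕ) : (2 : ℤ⟦X⟧) ∣ ff I n - 1 := by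
  classical
  unfold ff
  induction I using Finset.induction_on with
  | empty => simp
  | insert a s ha ih =>
    rw [Finset.prod_insert ha]
    have e : hs (n a) * ∏ x ∈ s, hs (n x) - 1 =
        (hs (n a) - 1) * ∏ x ∈ s, hs (n x) + (∏ x ∈ s, hs (n x) - 1) := by ring
    rw [e]
    exact dvd_add ((two_dvd_hs _).mul_right _) ih

theorem even_ff (I : Finset ℕ) (n : ℕ → ℕ) {j : ℕ} (hj : j ≠ 0) : (2 : ℤ) ∣ coeff j (ff I n) := by
  obtain ⟨g, hg⟩ := two_dvd_ff I n
  refine ⟨coeff j g, ?_⟩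
  have h := congrArg (coeff j) hg
  have e : (2 : ℤ⟦X⟧) = PowerSeries.C (2 : ℤ) := by simp
  rw [map_sub, PowerSeries.coeff_one, if_neg hj, sub_zero, e, PowerSeries.coeff_C_mul] at h
  exact h

theorem nrm_ff {N : ℕ} (I : Finset ℕ) (n : ℕ → ℕ) (hn : ∀ x ∈ I, n x < N) (J : ℕ) :
    nrm (1 / (8 * N)) J (ff I n) ≤ 2 ^ I.card := by
  unfold ff
  refine (nrm_prod (by positivity) J I _).trans ?_
  calc ∏ x ∈ I, nrm (1 / (8 * (N : ℝ))) J (hs (n x)) ≤ ∏ _x ∈ I, (2 : ℝ) :=
        Finset.prod_le_prod (fun x _ => nrm_nonneg (by positivity) _ _) fun x hx => nrm_hs (hn x hx) J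
    _ = 2 ^ I.card := by rw [Finset.prod_const]

theorem nrm_FF {N : ℕ} (I : Finset ℕ) (n : ℕ → ℕ) (hn : ∀ x ∈ I, n x < N) (J : ℕ) :
    nrm (1 / (8 * N)) J (FF I n : ℤ⟦X⟧) ≤ 2 ^ I.card := by
  unfold FF
  rw [coe_prod']
  refine (nrm_prod (by positivity) J I _).trans ?_
  calc ∏ x ∈ I, nrm (1 / (8 * (N : ℝ))) J
        ((1 + Polynomial.C (4 * (n x : ℤ)) * Polynomial.X : Polynomial ℤ) : ℤ⟦X⟧)
      ≤ ∏ _x ∈ I, (2 : ℝ) := by
        refine Finset.prod_le_prod (fun x _ => nrm_nonneg (by positivity) _ _) fun x hx => ?_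
        have hN : 0 < N := by have := hn x hx; omega
        have hN' : (0 : ℝ) < N := by exact_mod_cast hN
        have hnN : (n x : ℝ) ≤ N := by exact_mod_cast (hn x hx).le
        refine (nrm_mono (by positivity) (Nat.le_add_right J 2) _).trans ?_
        unfold nrm
        rw [Finset.sum_range_succ', Finset.sum_range_succ']
        have hz : ∑ i ∈ Finset.range J, |((coeff (i + 1 + 1)
            ((1 + Polynomial.C (4 * (n x : ℤ)) * Polynomial.X : Polynomial ℤ) : ℤ⟦X⟧) : ℤ) : ℝ)| *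
              (1 / (8 * (N : ℝ))) ^ (i + 1 + 1) = 0 := by
          refine Finset.sum_eq_zero fun i _ => ?_
          rw [Polynomial.coeff_coe]
          simp [Polynomial.coeff_one]
        rw [hz]
        simp only [Polynomial.coeff_coe]
        simp [Polynomial.coeff_one]
        have h1 : 4 * (n x : ℝ) * ((N : ℝ)⁻¹ * 8⁻¹) ≤ 1 := by
          rw [← mul_inv, ← div_eq_mul_inv, div_le_one (by positivity)]
          nlinarith
        linarith
    _ = 2 ^ I.card := by rw [Finset.prod_const]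

end Pool.Agent.W8ef934h40
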