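import Mathlib
import Pool.Agent.W_8ef934_h40.Sqrt

/-!
MP_8ef934_nt (helper40): homogenization of integer polynomials.
-/

set_option autoImplicit false

namespace Pool.Agent.W8ef934h40

open Polynomial

/-- `y ^ d * p (x / y)` -/
def hm (p : ℤ[X]) (d : ℕ) (x y : ℤ) : ℤ := ∑ j ∈ Finset.range (d + 1), p.coeff j * x ^ j * y ^ (d - j)

theorem hm_real (p : ℤ[X]) {d : ℕ} (hd : p.natDegree ≤ d) (x : ℤ) {y : ℤ} (hy : y ≠ 0) :
    ((hm p d x y : ℤ) : ℝ) = (y : ℝ) ^ d * aeval ((x : ℝ) / y) p := by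
  have hy' : (y : ℝ) ≠ 0 := by exact_mod_cast hy
  rw [Polynomial.aeval_eq_sum_range' (Nat.lt_succ_of_le hd), Finset.mul_sum]
  unfold hm
  push_cast
  refine Finset.sum_congr rfl fun j hj => ?_
  rw [Finset.mem_range] at hj
  have h1 : (y : ℝ) ^ d = (y : ℝ) ^ j * (y : ℝ) ^ (d - j) := by
    rw [← pow_add]
    congr 1
    omega
  rw [h1, div_pow, zsmul_eq_mul]
  field_simp

theorem hm_mul (p p' : ℤ[X]) {d d' : ℕ} (hd : p.natDegree ≤ d) (hd' : p'.natDegree ≤ d') (x : ℤ) {y : ℤ}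
    (hy : y ≠ 0) : hm (p * p') (d + d') x y = hm p d x y * hm p' d' x y := by
  have h : ((hm (p * p') (d + d') x y : ℤ) : ℝ) = ((hm p d x y * hm p' d' x y : ℤ) : ℝ) := by
    push_cast
    rw [hm_real _ (natDegree_mul_le.trans (add_le_add hd hd')) x hy, hm_real p hd x hy,
      hm_real p' hd' x hy, map_mul, pow_add]
    ring
  exact_mod_cast h

theorem hm_sub (p p' : ℤ[X]) (d : ℕ) (x y : ℤ) : hm (p - p') d x y = hm p d x y - hm p' d x y := by
  unfold hm
  rw [← Finset.sum_sub_distrib]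
  refine Finset.sum_congr rfl fun j _ => ?_
  rw [coeff_sub]
  ring

theorem natDegree_FF (I : Finset ℕ) (n : ℕ → ℕ) : (FF I n).natDegree ≤ I.card := by
  unfold FF
  refine (natDegree_prod_le _ _).trans ?_
  calc ∑ x ∈ I, (1 + C (4 * (n x : ℤ)) * X : ℤ[X]).natDegree ≤ ∑ _x ∈ I, 1 := by
        refine Finset.sum_le_sum fun x _ => ?_
        refine (natDegree_add_le _ _).trans ?_
        rw [natDegree_one]
        exact max_le (Nat.zero_le _) ((natDegree_C_mul_le _ _).trans natDegree_X_le)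
    _ = I.card := by simp

theorem hm_FF (I : Finset ℕ) (n : ℕ → ℕ) (x : ℤ) {y : ℤ} (hy : y ≠ 0) :
    hm (FF I n) I.card x y = ∏ i ∈ I, (y + 4 * x * n i) := by
  have hy' : (y : ℝ) ≠ 0 := by exact_mod_cast hy
  have h : ((hm (FF I n) I.card x y : ℤ) : ℝ) = ((∏ i ∈ I, (y + 4 * x * n i) : ℤ) : ℝ) := by
    rw [hm_real _ (natDegree_FF I n) x hy]
    unfold FF
    rw [map_prod, ← Finset.prod_const, ← Finset.prod_mul_distrib]
    push_cast
    refine Finset.prod_congr rfl fun i _ => ?_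
    simp only [map_add, map_one, map_mul, aeval_X, aeval_C]
    simp only [eq_intCast, Int.cast_ofNat, Int.cast_natCast]
    field_simp
  exact_mod_cast h

/-- modular evaluation -/
theorem hm_modEq (p : ℤ[X]) {d : ℕ} (hd : p.natDegree ≤ d) (x y c m : ℤ) (hc : m ∣ c * y - 1) :
    m ∣ hm p d x y - y ^ d * p.eval (x * c) := by
  rw [Polynomial.eval_eq_sum_range' (Nat.lt_succ_of_le hd), Finset.mul_sum]
  unfold hm
  rw [← Finset.sum_sub_distrib]
  refine Finset.dvd_sum fun j hj => ?_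
  rw [Finset.mem_range] at hj
  have h1 : y ^ d = y ^ j * y ^ (d - j) := by
    rw [← pow_add]
    congr 1
    omega
  have h2 : m ∣ 1 - (c * y) ^ j := by
    have h3 : c * y - 1 ∣ (c * y) ^ j - 1 ^ j := sub_dvd_pow_sub_pow _ _ _
    rw [one_pow] at h3
    have h4 := hc.trans h3
    rw [← Int.dvd_neg] at h4
    rwa [neg_sub] at h4
  have e : p.coeff j * x ^ j * y ^ (d - j) - y ^ d * (p.coeff j * (x * c) ^ j) =
      (p.coeff j * x ^ j * y ^ (d - j)) * (1 - (c * y) ^ j) := by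
    rw [h1, mul_pow, mul_pow]
    ring
  rw [e]
  exact h2.mul_left _

/-- a nonzero homogeneous form does not vanish at `(x, y)` for large `x` -/
theorem dvd_of_hm_eq_zero (p : ℤ[X]) (hp : p ≠ 0) {d : ℕ} (hd : p.natDegree ≤ d) {x y : ℤ} (hx : x ≠ 0)
    (hxy : IsCoprime x y) (h : hm p d x y = 0) : ∃ j ≤ d, p.coeff j ≠ 0 ∧ x ∣ p.coeff j := by
  have h0 : p.coeff p.natTrailingDegree ≠ 0 := by
    rw [← Polynomial.trailingCoeff]
    exact Polynomial.trailingCoeff_nonzero_iff_nonzero.2 hp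
  set j0 := p.natTrailingDegree with hj0
  have hj0d : j0 ≤ d := (natTrailingDegree_le_natDegree p).trans hd
  refine ⟨j0, hj0d, h0, ?_⟩
  have h1 : x ^ (j0 + 1) ∣ hm p d x y - p.coeff j0 * x ^ j0 * y ^ (d - j0) := by
    unfold hm
    rw [← Finset.add_sum_erase _ _ (Finset.mem_range.2 (Nat.lt_succ_of_le hj0d)), add_sub_cancel_left]
    refine Finset.dvd_sum fun j hj => ?_
    rw [Finset.mem_erase] at hj
    rcases lt_or_gt_of_ne hj.1 with h2 | h2
    · rw [coeff_eq_zero_of_lt_natTrailingDegree h2]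
      simp
    · exact ((pow_dvd_pow x h2).mul_left _).mul_right _
  rw [h, zero_sub, Int.dvd_neg] at h1
  have h2 : x ^ j0 * x ∣ x ^ j0 * (p.coeff j0 * y ^ (d - j0)) := by
    have e : x ^ j0 * (p.coeff j0 * y ^ (d - j0)) = p.coeff j0 * x ^ j0 * y ^ (d - j0) := by ring
    rw [e, ← pow_succ]
    exact h1
  have h3 : x ∣ p.coeff j0 * y ^ (d - j0) := Int.dvd_of_mul_dvd_mul_left (pow_ne_zero _ hx) h2
  exact (IsCoprime.pow_right hxy).dvd_of_dvd_mul_right h3

/-- the polynomial `A² - B² F` is not zero -/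
theorem sq_ne (A B : ℤ[X]) (hB : B ≠ 0) (I : Finset ℕ) (n : ℕ → ℕ)
    (hinj : ∀ x ∈ I, ∀ y ∈ I, n x = n y → x = y) {z : ℕ} (hz : z ∈ I) (hnz : n z ≠ 0) :
    A ^ 2 - B ^ 2 * FF I n ≠ 0 := by
  classical
  intro h
  have hi : Function.Injective (Int.castRingHom ℚ) := Int.cast_injective
  have h1 : (A.map (Int.castRingHom ℚ)) ^ 2 =
      (B.map (Int.castRingHom ℚ)) ^ 2 * (FF I n).map (Int.castRingHom ℚ) := by
    rw [← Polynomial.map_pow, ← Polynomial.map_pow, ← Polynomial.map_mul]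
    congr 1
    linear_combination h
  set A' := A.map (Int.castRingHom ℚ) with hA'
  set B' := B.map (Int.castRingHom ℚ) with hB'
  have hB0 : B' ≠ 0 := (Polynomial.map_ne_zero_iff hi).2 hB
  set al : ℚ := -1 / (4 * n z) with hal
  have hnz' : (n z : ℚ) ≠ 0 := by exact_mod_cast hnz
  have hF : (FF I n).map (Int.castRingHom ℚ) =
      (X - C al) * (C (4 * (n z : ℚ)) * ∏ x ∈ I.erase z, (1 + C (4 * (n x : ℚ)) * X)) := by
    unfold FF
    rw [Polynomial.map_prod, ← Finset.mul_prod_erase I _ hz, ← mul_assoc]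
    congr 1
    · simp only [Polynomial.map_add, Polynomial.map_one, Polynomial.map_mul, Polynomial.map_X,
        Polynomial.map_C]
      have e : (1 : ℚ[X]) = C (1 : ℚ) := by simp
      have e2 : (1 : ℚ) = - (al * (4 * n z)) := by
        rw [hal]
        field_simp
      rw [sub_mul, ← C_mul, e]
      conv_lhs => rw [e2]
      simp
      ring
    · refine Finset.prod_congr rfl fun x _ => ?_
      simp
      left
      exact (map_ofNat C 4).symm
  set G : ℚ[X] := C (4 * (n z : ℚ)) * ∏ x ∈ I.erase z, (1 + C (4 * (n x : ℚ)) * X) with hG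
  have hGal : ¬ G.IsRoot al := by
    rw [hG, Polynomial.IsRoot.def, eval_mul, eval_C, eval_prod]
    refine mul_ne_zero (by positivity) ?_
    rw [Finset.prod_ne_zero_iff]
    intro x hx
    rw [Finset.mem_erase] at hx
    simp only [eval_add, eval_one, eval_mul, eval_C, eval_X]
    intro h3
    apply hx.1
    apply hinj x hx.2 z hz
    rw [hal] at h3
    field_simp at h3
    have h4 : (n x : ℚ) = n z := by linarith
    exact_mod_cast h4
  have hG0 : G ≠ 0 := fun h0 => hGal (by rw [h0]; simp)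
  have hX0 : (X - C al : ℚ[X]) ≠ 0 := X_sub_C_ne_zero al
  have hA0 : A' ≠ 0 := by
    intro h0
    rw [h0, hF] at h1
    have := mul_ne_zero (pow_ne_zero 2 hB0) (mul_ne_zero hX0 hG0)
    apply this
    rw [← h1]
    simp
  have h5 := congrArg (rootMultiplicity al) h1
  rw [hF, pow_two, pow_two, rootMultiplicity_mul (mul_ne_zero hA0 hA0),
    rootMultiplicity_mul (mul_ne_zero (mul_ne_zero hB0 hB0) (mul_ne_zero hX0 hG0)),
    rootMultiplicity_mul (mul_ne_zero hB0 hB0), rootMultiplicity_mul (mul_ne_zero hX0 hG0),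
    rootMultiplicity_X_sub_C_self, rootMultiplicity_eq_zero hGal] at h5
  omega

end Pool.Agent.W8ef934h40
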