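import Mathlib
import Pool.Agent.W_8ef934_h40.Hom

/-!
MP_8ef934_nt (helper40): divisibility of the values of the approximations by high powers.
-/

set_option autoImplicit false

namespace Pool.Agent.W8ef934h40

open Polynomial

theorem X_pow_dvd_sq (I : Finset ℕ) (n : ℕ → ℕ) (M : ℕ) :
    (X : ℤ[X]) ^ M ∣ (PowerSeries.trunc M (ff I n)) ^ 2 - FF I n := by
  rw [Polynomial.X_pow_dvd_iff]
  intro d hd
  rw [coeff_sub, ← Polynomial.coeff_coe, ← Polynomial.coeff_coe (FF I n), Polynomial.coe_pow, pow_two,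
    ← PowerSeries.coeff_mul_eq_coeff_trunc_mul_trunc _ _ hd, ← pow_two, ff_sq, sub_self]

theorem X_pow_dvd_AB (f : PowerSeries ℤ) (B : ℤ[X]) (s M : ℕ)
    (hB : ∀ j, s < j → j < M → PowerSeries.coeff j ((B : PowerSeries ℤ) * f) = 0) :
    (X : ℤ[X]) ^ M ∣ PowerSeries.trunc (s + 1) ((B : PowerSeries ℤ) * f) - B * PowerSeries.trunc M f := by
  rw [Polynomial.X_pow_dvd_iff]
  intro d hd
  have h1 : (B * PowerSeries.trunc M f).coeff d = PowerSeries.coeff d ((B : PowerSeries ℤ) * f) := by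
    rw [← Polynomial.coeff_coe, Polynomial.coe_mul, PowerSeries.coeff_mul, PowerSeries.coeff_mul]
    refine Finset.sum_congr rfl fun p hp => ?_
    rw [Finset.HasAntidiagonal.mem_antidiagonal] at hp
    rw [PowerSeries.coeff_coe_trunc_of_lt (by omega)]
  rw [coeff_sub, h1, PowerSeries.coeff_trunc]
  split_ifs with h
  · rw [sub_self]
  · rw [hB d (by omega) hd, sub_self]

theorem two_X_dvd (I : Finset ℕ) (n : ℕ → ℕ) (M : ℕ) (hM : 0 < M) :
    (2 * X : ℤ[X]) ∣ PowerSeries.trunc M (ff I n) - 1 := by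
  obtain ⟨g, hg⟩ := two_dvd_ff I n
  have h0 : ∀ j, (PowerSeries.trunc M (ff I n) - 1).coeff j =
      if j < M then 2 * PowerSeries.coeff j g else 0 := by
    intro j
    rw [coeff_sub, PowerSeries.coeff_trunc, Polynomial.coeff_one]
    have h := congrArg (PowerSeries.coeff j) hg
    have e : (2 : PowerSeries ℤ) = PowerSeries.C (2 : ℤ) := by simp
    rw [map_sub, e, PowerSeries.coeff_C_mul, PowerSeries.coeff_one] at h
    by_cases hj : j < M
    · rw [if_pos hj, if_pos hj, ← h]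
    · rw [if_neg hj, if_neg hj, if_neg (by omega)]
      simp
  have hg0 : PowerSeries.coeff 0 g = 0 := by
    have h := congrArg (PowerSeries.coeff 0) hg
    have e : (2 : PowerSeries ℤ) = PowerSeries.C (2 : ℤ) := by simp
    rw [map_sub, e, PowerSeries.coeff_C_mul, coeff_ff_zero, PowerSeries.coeff_one, if_pos rfl, sub_self] at h
    omega
  have hd : X ∣ PowerSeries.trunc M g := by
    rw [Polynomial.X_dvd_iff, PowerSeries.coeff_trunc, if_pos hM, hg0]
  obtain ⟨u, hu⟩ := hd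
  refine ⟨u, ?_⟩
  have e2 : (2 * X : ℤ[X]) * u = C 2 * PowerSeries.trunc M g := by
    rw [hu]
    simp
    ring
  rw [e2]
  ext j
  rw [h0, coeff_C_mul, PowerSeries.coeff_trunc]
  split_ifs <;> simp

/-- the `p`-adic step -/
theorem prime_step {p : ℕ} (hp : p.Prime) {e : ℕ} {Y Z b : ℤ} {K : ℕ} (hpb : IsCoprime (p : ℤ) b)
    (hY : (p : ℤ) ∣ Y ^ 2 - b ^ K) (h : (p : ℤ) ^ e ∣ Y ^ 2 - Z ^ 2) {sg : ℤ} (hsg : sg ^ 2 = 1)
    (hd : (if p = 2 then 4 else (p : ℤ)) ∣ Y - sg * Z) : (p : ℤ) ^ e ∣ 2 * (Y - sg * Z) := by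
  have hpp : Prime (p : ℤ) := Nat.prime_iff_prime_int.1 hp
  have hpY : ¬ (p : ℤ) ∣ Y := by
    intro h1
    have h2 : (p : ℤ) ∣ b ^ K := by
      have h3 : (p : ℤ) ∣ Y ^ 2 := h1.trans (dvd_pow_self Y two_ne_zero)
      have := dvd_sub h3 hY
      rwa [sub_sub_cancel] at this
    have h4 : IsCoprime (p : ℤ) (b ^ K) := hpb.pow_right
    exact hpp.not_isUnit (h4.isUnit_of_dvd' dvd_rfl h2)
  have e1 : Y ^ 2 - Z ^ 2 = (Y - sg * Z) * (2 * Y - (Y - sg * Z)) := by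
    linear_combination (Z ^ 2) * hsg
  rw [e1] at h
  by_cases h2 : p = 2
  · subst h2
    rw [if_pos rfl] at hd
    obtain ⟨w, hw⟩ := hd
    have h3 : IsCoprime ((2 : ℕ) : ℤ) (Y - 2 * w) := by
      rw [Nat.cast_ofNat] at hpY ⊢
      rw [Prime.coprime_iff_not_dvd Int.prime_two]
      intro h4
      apply hpY
      omega
    have h4 : ((2 : ℕ) : ℤ) ^ e ∣ (2 * (Y - sg * Z)) * (Y - 2 * w) := by
      have e2 : (2 * (Y - sg * Z)) * (Y - 2 * w) = (Y - sg * Z) * (2 * Y - (Y - sg * Z)) := by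
        rw [hw]
        ring
      rw [e2]
      exact h
    exact h3.pow_left.dvd_of_dvd_mul_right h4
  · rw [if_neg h2] at hd
    have h3 : IsCoprime (p : ℤ) (2 * Y - (Y - sg * Z)) := by
      rw [Prime.coprime_iff_not_dvd hpp]
      intro h4
      have h5 : (p : ℤ) ∣ 2 * Y := by
        have := dvd_add h4 hd
        rwa [sub_add_cancel] at this
      rcases hpp.dvd_or_dvd h5 with h6 | h6
      · have h7 : p ∣ 2 := by exact_mod_cast h6
        exact h2 ((Nat.prime_dvd_prime_iff_eq hp Nat.prime_two).1 h7)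
      · exact hpY h6
    exact (h3.pow_left.dvd_of_dvd_mul_right h).mul_left 2

/-- the divisibility of the approximations -/
theorem main_dvd (I : Finset ℕ) (n : ℕ → ℕ) {k : ℕ} (hI : I.card = 2 * k) (B : ℤ[X]) (s M : ℕ) (hM : 0 < M)
    (hBd : B.natDegree ≤ s)
    (hB : ∀ j, s < j → j < M → PowerSeries.coeff j ((B : PowerSeries ℤ) * ff I n) = 0)
    {q b Y : ℤ} (hb : b ≠ 0) (hY : Y ^ 2 = ∏ i ∈ I, (b + 4 * q * n i)) (hqb : IsCoprime q b)
    {p v : ℕ} (hp : p.Prime) (hv : 0 < v) (hpq : (p : ℤ) ^ v ∣ q) {sg : ℤ} (hsg : sg ^ 2 = 1)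
    (hd : (if p = 2 then 4 else (p : ℤ)) ∣ Y - sg * b ^ k) :
    (p : ℤ) ^ (v * M) ∣ 2 * (hm (PowerSeries.trunc (s + 1) ((B : PowerSeries ℤ) * ff I n)) s q b * b ^ k -
      sg * (hm B s q b * Y)) := by
  set A : ℤ[X] := PowerSeries.trunc (s + 1) ((B : PowerSeries ℤ) * ff I n) with hA
  have hAd : A.natDegree ≤ s := Nat.lt_succ_iff.1 (PowerSeries.natDegree_trunc_lt _ s)
  have hpq1 : (p : ℤ) ∣ q := (dvd_pow_self (p : ℤ) hv.ne').trans hpq
  have hpb : IsCoprime (p : ℤ) b := hqb.of_isCoprime_of_dvd_left hpq1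
  obtain ⟨c, hc⟩ : ∃ c : ℤ, (p : ℤ) ^ (v * M) ∣ c * b - 1 := by
    obtain ⟨x, y, hxy⟩ := (hpb.pow_left : IsCoprime ((p : ℤ) ^ (v * M)) b)
    exact ⟨y, ⟨-x, by linear_combination hxy⟩⟩
  set T : ℤ := q * c with hT
  have hTM : (p : ℤ) ^ (v * M) ∣ T ^ M := by
    rw [pow_mul]
    exact pow_dvd_pow_of_dvd (hpq.mul_right c) M
  set f0 : ℤ := (PowerSeries.trunc M (ff I n)).eval T with hf0
  have h1 : (p : ℤ) ^ (v * M) ∣ A.eval T - B.eval T * f0 := by
    obtain ⟨u, hu⟩ := X_pow_dvd_AB (ff I n) B s M hB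
    refine hTM.trans ⟨u.eval T, ?_⟩
    have := congrArg (Polynomial.eval T) hu
    simpa using this
  have h2 : (p : ℤ) ^ (v * M) ∣ f0 ^ 2 - (FF I n).eval T := by
    obtain ⟨u, hu⟩ := X_pow_dvd_sq I n M
    refine hTM.trans ⟨u.eval T, ?_⟩
    have := congrArg (Polynomial.eval T) hu
    simpa using this
  have h3 : (p : ℤ) ^ (v * M) ∣ hm A s q b - b ^ s * A.eval T := hm_modEq A hAd q b c _ hc
  have h4 : (p : ℤ) ^ (v * M) ∣ hm B s q b - b ^ s * B.eval T := hm_modEq B hBd q b c _ hc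
  have h5 : (p : ℤ) ^ (v * M) ∣ Y ^ 2 - b ^ (2 * k) * (FF I n).eval T := by
    rw [hY, ← hm_FF I n q hb, ← hI]
    exact hm_modEq _ (natDegree_FF I n) q b c _ hc
  have h6 : (p : ℤ) ^ (v * M) ∣ Y ^ 2 - (b ^ k * f0) ^ 2 := by
    have e : Y ^ 2 - (b ^ k * f0) ^ 2 = (Y ^ 2 - b ^ (2 * k) * (FF I n).eval T) -
        b ^ (2 * k) * (f0 ^ 2 - (FF I n).eval T) := by
      rw [mul_pow, ← pow_mul, mul_comm k 2]
      ring
    rw [e]
    exact dvd_sub h5 (h2.mul_left _)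
  have h7 : (if p = 2 then 4 else (p : ℤ)) ∣ f0 - 1 := by
    obtain ⟨u, hu⟩ := two_X_dvd I n M hM
    have h8 : 2 * T ∣ f0 - 1 := ⟨u.eval T, by
      have := congrArg (Polynomial.eval T) hu
      simpa using this⟩
    refine Dvd.dvd.trans ?_ h8
    split_ifs with h2
    · subst h2
      obtain ⟨w, hw⟩ := hpq1
      refine ⟨w * c, ?_⟩
      rw [hT, hw]
      push_cast
      ring
    · exact (hpq1.mul_right c).mul_left 2
  have h8 : (if p = 2 then 4 else (p : ℤ)) ∣ Y - sg * (b ^ k * f0) := by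
    have e : Y - sg * (b ^ k * f0) = (Y - sg * b ^ k) - sg * b ^ k * (f0 - 1) := by ring
    rw [e]
    exact dvd_sub hd (h7.mul_left _)
  have hYp : (p : ℤ) ∣ Y ^ 2 - b ^ (2 * k) := by
    rw [hY]
    have h9 : q ∣ ∏ i ∈ I, (b + 4 * q * n i) - ∏ i ∈ I, b := by
      rw [← Int.modEq_iff_dvd]
      refine Int.ModEq.prod fun i _ => ?_
      rw [Int.modEq_iff_dvd]
      exact ⟨4 * n i, by ring⟩
    rw [Finset.prod_const, hI] at h9
    exact hpq1.trans h9
  have h9 := prime_step hp hpb hYp h6 hsg h8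
  have e : 2 * (hm A s q b * b ^ k - sg * (hm B s q b * Y)) =
      2 * b ^ k * (hm A s q b - b ^ s * A.eval T) - 2 * sg * Y * (hm B s q b - b ^ s * B.eval T) +
      2 * b ^ k * b ^ s * (A.eval T - B.eval T * f0) -
      sg * b ^ s * B.eval T * (2 * (Y - sg * (b ^ k * f0))) := by
    linear_combination (-2 * b ^ s * B.eval T * b ^ k * f0) * hsg
  rw [e]
  exact dvd_sub (dvd_add (dvd_sub (h3.mul_left _) (h4.mul_left _)) (h1.mul_left _)) (h9.mul_left _)

end Pool.Agent.W8ef934h40
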