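import Mathlib
import Pool.Agent.W_8ef934_h40.Div

/-!
MP_8ef934_nt (helper40): the size of the values of the approximations.
-/

set_option autoImplicit false

namespace Pool.Agent.W8ef934h40

open Polynomial

/-- evaluation of a polynomial with vanishing low coefficients -/
theorem aeval_le (p : ℤ[X]) {Z T : ℝ} (hZ : 0 < Z) (hT : 0 ≤ T) (hZT : Z * T ≤ 1) (M J : ℕ)
    (hJ : p.natDegree < J) (hM : ∀ j < M, p.coeff j = 0) :
    |aeval T p| ≤ (Z * T) ^ M * nrm (1 / Z) J (p : PowerSeries ℤ) := by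
  rw [Polynomial.aeval_eq_sum_range' hJ]
  refine (Finset.abs_sum_le_sum_abs _ _).trans ?_
  unfold nrm
  rw [Finset.mul_sum]
  refine Finset.sum_le_sum fun j _ => ?_
  rw [Polynomial.coeff_coe, zsmul_eq_mul, abs_mul, abs_pow, abs_of_nonneg hT]
  by_cases hj : j < M
  · rw [hM j hj]
    simp
  · have h0 : 0 ≤ Z * T := by positivity
    have h1 : T ^ j = (Z * T) ^ j * (1 / Z) ^ j := by
      rw [← mul_pow]
      congr 1
      field_simp
    have h2 : (Z * T) ^ j ≤ (Z * T) ^ M := pow_le_pow_of_le_one h0 hZT (not_lt.1 hj)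
    rw [h1]
    have h3 : 0 ≤ |((p.coeff j : ℤ) : ℝ)| * (1 / Z) ^ j := by positivity
    nlinarith

theorem hm_le (p : ℤ[X]) {Z : ℝ} (hZ : 1 ≤ Z) (s : ℕ) {q b : ℤ} {Mx : ℝ} (hq : |(q : ℝ)| ≤ Mx)
    (hb : |(b : ℝ)| ≤ Mx) :
    |((hm p s q b : ℤ) : ℝ)| ≤ Mx ^ s * Z ^ s * nrm (1 / Z) (s + 1) (p : PowerSeries ℤ) := by
  have hMx : 0 ≤ Mx := (abs_nonneg _).trans hq
  unfold hm nrm
  push_cast
  refine (Finset.abs_sum_le_sum_abs _ _).trans ?_
  rw [Finset.mul_sum]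
  refine Finset.sum_le_sum fun j hj => ?_
  rw [Finset.mem_range] at hj
  rw [abs_mul, abs_mul, abs_pow, abs_pow]
  have h1 : |(q : ℝ)| ^ j * |(b : ℝ)| ^ (s - j) ≤ Mx ^ s := by
    calc |(q : ℝ)| ^ j * |(b : ℝ)| ^ (s - j) ≤ Mx ^ j * Mx ^ (s - j) := by
          apply mul_le_mul (pow_le_pow_left₀ (abs_nonneg _) hq j) (pow_le_pow_left₀ (abs_nonneg _) hb _)
          · positivity
          · positivity
      _ = Mx ^ s := by
          rw [← pow_add]
          congr 1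
          omega
  have h2 : 1 ≤ Z ^ s * (1 / Z) ^ j := by
    have h3 : Z ^ j * (1 / Z) ^ j = 1 := by
      rw [← mul_pow, mul_one_div, div_self (by linarith), one_pow]
    calc (1 : ℝ) = Z ^ j * (1 / Z) ^ j := h3.symm
      _ ≤ Z ^ s * (1 / Z) ^ j :=
        mul_le_mul_of_nonneg_right (pow_le_pow_right₀ hZ (by omega)) (by positivity)
  calc |((p.coeff j : ℤ) : ℝ)| * |(q : ℝ)| ^ j * |(b : ℝ)| ^ (s - j)
      = |((p.coeff j : ℤ) : ℝ)| * (|(q : ℝ)| ^ j * |(b : ℝ)| ^ (s - j)) := by ring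
    _ ≤ |((p.coeff j : ℤ) : ℝ)| * Mx ^ s := mul_le_mul_of_nonneg_left h1 (abs_nonneg _)
    _ ≤ (|((p.coeff j : ℤ) : ℝ)| * Mx ^ s) * (Z ^ s * (1 / Z) ^ j) :=
        le_mul_of_one_le_right (by positivity) h2
    _ = _ := by ring

theorem Y_le (I : Finset ℕ) (n : ℕ → ℕ) {k N : ℕ} (hI : I.card = 2 * k) (hn : ∀ x ∈ I, n x < N)
    {q b Y : ℤ} (hq : 0 < q) (hb : 0 < b) (hY : Y ^ 2 = ∏ i ∈ I, (b + 4 * q * n i)) {Mx : ℝ}
    (hqM : (q : ℝ) ≤ Mx) (hbM : (b : ℝ) ≤ Mx) : |(Y : ℝ)| ≤ (Mx * (8 * N)) ^ k := by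
  have hq' : (0 : ℝ) < q := by exact_mod_cast hq
  have hb' : (0 : ℝ) < b := by exact_mod_cast hb
  have hMx : 0 < Mx := by linarith
  apply abs_le_of_sq_le_sq _ (by positivity)
  have h1 : (Y : ℝ) ^ 2 = ∏ i ∈ I, ((b : ℝ) + 4 * q * n i) := by
    have := congrArg (fun z : ℤ => (z : ℝ)) hY
    push_cast at this
    exact this
  rw [h1, ← pow_mul, mul_comm k 2, ← hI, ← Finset.prod_const]
  refine Finset.prod_le_prod (fun i _ => by positivity) fun i hi => ?_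
  have h2 : ((n i : ℕ) : ℝ) + 1 ≤ N := by exact_mod_cast hn i hi
  have h3 : (0 : ℝ) ≤ n i := Nat.cast_nonneg _
  nlinarith

theorem b_le_Y (I : Finset ℕ) (n : ℕ → ℕ) {k : ℕ} (hI : I.card = 2 * k)
    {q b Y : ℤ} (hq : 0 < q) (hb : 0 < b) (hY0 : 0 < Y) (hY : Y ^ 2 = ∏ i ∈ I, (b + 4 * q * n i)) :
    b ^ k ≤ Y := by
  have h1 : (b ^ k) ^ 2 ≤ Y ^ 2 := by
    rw [hY, ← pow_mul, mul_comm k 2, ← hI, ← Finset.prod_const]
    refine Finset.prod_le_prod (fun i _ => hb.le) fun i hi => ?_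
    have : (0 : ℤ) ≤ 4 * q * n i := by positivity
    linarith
  exact (abs_le_of_sq_le_sq' h1 hY0.le).2

section

variable (I : Finset ℕ) (n : ℕ → ℕ) {k N : ℕ} (hI : I.card = 2 * k) (hN : 0 < N)
  (hn : ∀ x ∈ I, n x < N) (B : ℤ[X]) (s : ℕ) {W : ℝ}
  (hW : ∀ J, nrm (1 / (8 * N)) J (B : PowerSeries ℤ) ≤ W)

include hI hn hW

theorem nrm_A (J : ℕ) :
    nrm (1 / (8 * N)) J (PowerSeries.trunc (s + 1) ((B : PowerSeries ℤ) * ff I n) : PowerSeries ℤ) ≤
      4 ^ k * W := by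
  have hr : (0 : ℝ) ≤ 1 / (8 * N) := by positivity
  refine (nrm_trunc hr J (s + 1) _).trans ((nrm_mul hr _ _ _).trans ?_)
  have h1 := nrm_ff I n hn (s + 1)
  rw [hI, pow_mul] at h1
  norm_num at h1
  have h0 := nrm_nonneg hr (s + 1) (ff I n)
  have h2 := hW (s + 1)
  have h3 := nrm_nonneg hr (s + 1) (B : PowerSeries ℤ)
  rw [mul_comm]
  have h1' : nrm (1 / (8 * N)) (s + 1) (ff I n) ≤ 4 ^ k := by
    have e : (1 : ℝ) / (8 * N) = (N : ℝ)⁻¹ * (1 / 8) := by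
      rw [one_div, mul_inv, mul_comm]
      norm_num
    rw [e]
    exact h1
  exact mul_le_mul h1' h2 h3 (by positivity)

include hN in
theorem g_le {q b Y : ℤ} (hq : 0 < q) (hb : 0 < b) (hY : Y ^ 2 = ∏ i ∈ I, (b + 4 * q * n i))
    {Mx : ℝ} (hqM : (q : ℝ) ≤ Mx) (hbM : (b : ℝ) ≤ Mx) {sg : ℤ} (hsg : |sg| = 1) :
    |((hm (PowerSeries.trunc (s + 1) ((B : PowerSeries ℤ) * ff I n)) s q b * b ^ k -
      sg * (hm B s q b * Y) : ℤ) : ℝ)| ≤ (Mx * (8 * N)) ^ (s + k) * (2 * 4 ^ k * W) := by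
  have hN' : (1 : ℝ) ≤ N := by exact_mod_cast hN
  have hr : (0 : ℝ) ≤ 1 / (8 * N) := by positivity
  have hq' : (0 : ℝ) < q := by exact_mod_cast hq
  have hb' : (0 : ℝ) < b := by exact_mod_cast hb
  have hMx : 0 < Mx := by linarith
  have hW0 : 0 ≤ W := (nrm_nonneg hr 0 _).trans (hW 0)
  have h1 := (hm_le (PowerSeries.trunc (s + 1) ((B : PowerSeries ℤ) * ff I n)) (Z := 8 * N) (by linarith) s
    (q := q) (b := b) (Mx := Mx) (by rwa [abs_of_pos hq']) (by rwa [abs_of_pos hb'])).trans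
      (mul_le_mul_of_nonneg_left (nrm_A I n hI hn B s hW _) (by positivity))
  have h2 := (hm_le B (Z := 8 * N) (by linarith) s
    (q := q) (b := b) (Mx := Mx) (by rwa [abs_of_pos hq']) (by rwa [abs_of_pos hb'])).trans
      (mul_le_mul_of_nonneg_left (hW _) (by positivity))
  have h3 := Y_le I n hI hn hq hb hY hqM hbM
  push_cast
  have hsg' : |(sg : ℝ)| = 1 := by exact_mod_cast hsg
  set a1 : ℝ := ((hm (PowerSeries.trunc (s + 1) ((B : PowerSeries ℤ) * ff I n)) s q b : ℤ) : ℝ) with ha1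
  set a2 : ℝ := ((hm B s q b : ℤ) : ℝ) with ha2
  have h4 : |a1 * (b : ℝ) ^ k| ≤ (Mx ^ s * (8 * N) ^ s * (4 ^ k * W)) * (Mx ^ k * (8 * N) ^ k) := by
    rw [abs_mul, abs_pow, abs_of_pos hb']
    refine mul_le_mul h1 ?_ (by positivity) (by positivity)
    calc (b : ℝ) ^ k ≤ Mx ^ k := pow_le_pow_left₀ hb'.le hbM k
      _ ≤ Mx ^ k * (8 * N) ^ k := le_mul_of_one_le_right (by positivity) (one_le_pow₀ (by linarith))
  have h5 : |(sg : ℝ) * (a2 * Y)| ≤ (Mx ^ s * (8 * N) ^ s * W) * (Mx ^ k * (8 * N) ^ k) := by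
    rw [abs_mul, hsg', one_mul, abs_mul]
    rw [mul_pow] at h3
    exact mul_le_mul h2 h3 (abs_nonneg _) (by positivity)
  have h6 : (1 : ℝ) ≤ 4 ^ k := one_le_pow₀ (by norm_num)
  calc |a1 * (b : ℝ) ^ k - sg * (a2 * Y)| ≤ |a1 * (b : ℝ) ^ k| + |(sg : ℝ) * (a2 * Y)| := abs_sub _ _
    _ ≤ (Mx ^ s * (8 * N) ^ s * (4 ^ k * W)) * (Mx ^ k * (8 * N) ^ k) +
        (Mx ^ s * (8 * N) ^ s * W) * (Mx ^ k * (8 * N) ^ k) := add_le_add h4 h5
    _ = (Mx * (8 * N)) ^ (s + k) * (4 ^ k * W + W) := by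
        rw [mul_pow Mx (8 * (N : ℝ)) (s + k), pow_add, pow_add]
        ring
    _ ≤ _ := by
        refine mul_le_mul_of_nonneg_left ?_ (by positivity)
        nlinarith

include hN in
/-- the case of large `b` -/
theorem gminus_le {M : ℕ} (hM : 0 < M) (hBd : B.natDegree ≤ s)
    (hB : ∀ j, s < j → j < M → PowerSeries.coeff j ((B : PowerSeries ℤ) * ff I n) = 0)
    {q b Y : ℤ} (hq : 0 < q) (hb : 0 < b) (hY0 : 0 < Y) (hY : Y ^ 2 = ∏ i ∈ I, (b + 4 * q * n i))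
    (hbig : 4 ^ (k + 1) * (8 * N) * (q : ℝ) ≤ b) :
    |((hm (PowerSeries.trunc (s + 1) ((B : PowerSeries ℤ) * ff I n)) s q b * b ^ k -
      1 * (hm B s q b * Y) : ℤ) : ℝ)| ≤ (b : ℝ) ^ (s + k) * (8 * N * (q / b)) ^ M * (4 * 16 ^ k * W) := by
  have hN' : (1 : ℝ) ≤ N := by exact_mod_cast hN
  have hr : (0 : ℝ) ≤ 1 / (8 * N) := by positivity
  have hq' : (0 : ℝ) < q := by exact_mod_cast hq
  have hb' : (0 : ℝ) < b := by exact_mod_cast hb
  have hW0 : 0 ≤ W := (nrm_nonneg hr 0 _).trans (hW 0)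
  have h4k : (1 : ℝ) ≤ 4 ^ k := one_le_pow₀ (by norm_num)
  have h16 : (16 : ℝ) ^ k = 4 ^ k * 4 ^ k := by rw [← mul_pow]; norm_num
  set A : ℤ[X] := PowerSeries.trunc (s + 1) ((B : PowerSeries ℤ) * ff I n) with hA
  have hAd : A.natDegree ≤ s := Nat.lt_succ_iff.1 (PowerSeries.natDegree_trunc_lt _ s)
  set T : ℝ := (q : ℝ) / b with hT
  have hT0 : 0 < T := by positivity
  have hZT : 8 * N * T * (4 * 4 ^ k) ≤ 1 := by
    rw [hT]
    rw [pow_succ] at hbig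
    rw [mul_div_assoc', div_mul_eq_mul_div, div_le_one hb']
    linarith
  have hZT0 : 0 < 8 * N * T := by positivity
  have hZT1 : 8 * N * T ≤ 1 := by nlinarith
  set fM : ℤ[X] := PowerSeries.trunc M (ff I n) with hfM
  have hff : ∀ J, nrm (1 / (8 * N)) J (ff I n) ≤ 4 ^ k := by
    intro J
    have h := nrm_ff I n hn J
    rw [hI, pow_mul] at h
    refine h.trans (le_of_eq ?_)
    norm_num
  have hfMn : ∀ J, nrm (1 / (8 * N)) J (fM : PowerSeries ℤ) ≤ 4 ^ k := fun J =>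
    (nrm_trunc hr J M _).trans (hff M)
  have hFn : ∀ J, nrm (1 / (8 * N)) J (FF I n : PowerSeries ℤ) ≤ 4 ^ k := by
    intro J
    have h := nrm_FF I n hn J
    rw [hI, pow_mul] at h
    refine h.trans (le_of_eq ?_)
    norm_num
  have hfM0 : ∀ J, 0 ≤ nrm (1 / (8 * N)) J (fM : PowerSeries ℤ) := fun J => nrm_nonneg hr J _
  have hB0 : ∀ J, 0 ≤ nrm (1 / (8 * N)) J (B : PowerSeries ℤ) := fun J => nrm_nonneg hr J _
  -- `A - B f`
  have h1 : |aeval T (A - B * fM)| ≤ (8 * N * T) ^ M * (4 ^ k * W + W * 4 ^ k) := by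
    refine (aeval_le _ (by positivity) hT0.le hZT1 M ((A - B * fM).natDegree + 1) (Nat.lt_succ_self _)
      (Polynomial.X_pow_dvd_iff.1 (X_pow_dvd_AB (ff I n) B s M hB))).trans ?_
    refine mul_le_mul_of_nonneg_left ?_ (by positivity)
    rw [Polynomial.coe_sub, Polynomial.coe_mul]
    refine (nrm_sub hr _ _ _).trans (add_le_add (nrm_A I n hI hn B s hW _) ?_)
    refine (nrm_mul hr _ _ _).trans ?_
    exact mul_le_mul (hW _) (hfMn _) (hfM0 _) hW0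
  -- `f ^ 2 - F`
  have h2 : |aeval T (fM ^ 2 - FF I n)| ≤ (8 * N * T) ^ M * (16 ^ k + 4 ^ k) := by
    refine (aeval_le _ (by positivity) hT0.le hZT1 M ((fM ^ 2 - FF I n).natDegree + 1) (Nat.lt_succ_self _)
      (Polynomial.X_pow_dvd_iff.1 (X_pow_dvd_sq I n M))).trans ?_
    refine mul_le_mul_of_nonneg_left ?_ (by positivity)
    have e : ((fM ^ 2 - FF I n : ℤ[X]) : PowerSeries ℤ) = (fM : PowerSeries ℤ) * fM - FF I n := by
      rw [Polynomial.coe_sub, Polynomial.coe_pow, sq]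
    rw [e]
    refine (nrm_sub hr _ _ _).trans (add_le_add ?_ (hFn _))
    refine (nrm_mul hr _ _ _).trans ?_
    rw [h16]
    exact mul_le_mul (hfMn _) (hfMn _) (hfM0 _) (by positivity)
  -- `f ≥ 0`
  have h3 : |aeval T (fM - 1)| ≤ 1 / 2 := by
    have h := aeval_le (fM - 1) (Z := 8 * N) (T := T) (by positivity) hT0.le hZT1 1
      ((fM - 1).natDegree + 1) (Nat.lt_succ_self _) (by
        intro j hj
        have hj0 : j = 0 := by omega
        subst hj0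
        rw [coeff_sub, hfM, PowerSeries.coeff_trunc, if_pos hM, coeff_ff_zero]
        simp)
    refine h.trans ?_
    rw [pow_one]
    have h5 : nrm (1 / (8 * N)) ((fM - 1).natDegree + 1) ((fM - 1 : ℤ[X]) : PowerSeries ℤ) ≤ 4 ^ k + 1 := by
      rw [Polynomial.coe_sub, Polynomial.coe_one]
      exact (nrm_sub hr _ _ _).trans (add_le_add (hfMn _) (nrm_one _ _))
    have h6 : 8 * N * T * nrm (1 / (8 * N)) ((fM - 1).natDegree + 1) ((fM - 1 : ℤ[X]) : PowerSeries ℤ) ≤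
        8 * N * T * (4 ^ k + 1) := mul_le_mul_of_nonneg_left h5 hZT0.le
    nlinarith
  set fT : ℝ := aeval T fM with hfT
  have hfT0 : 0 ≤ fT := by
    rw [map_sub, map_one, abs_le] at h3
    linarith [h3.1]
  -- `Y`
  set y : ℝ := (Y : ℝ) / (b : ℝ) ^ k with hy
  have hbk : (0 : ℝ) < (b : ℝ) ^ k := by positivity
  have hy1 : 1 ≤ y := by
    rw [hy, le_div_iff₀ hbk, one_mul]
    exact_mod_cast b_le_Y I n hI hq hb hY0 hY
  have hy2 : y ^ 2 = aeval T (FF I n) := by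
    have h5 : ((Y ^ 2 : ℤ) : ℝ) = (b : ℝ) ^ (2 * k) * aeval T (FF I n) := by
      rw [hY, ← hm_FF I n q hb.ne', hm_real _ (natDegree_FF I n) q hb.ne', hI]
    push_cast at h5
    rw [hy, div_pow, h5, div_eq_iff (by positivity), ← pow_mul, mul_comm k 2]
    ring
  have h7 : |fT - y| ≤ (8 * N * T) ^ M * (16 ^ k + 4 ^ k) := by
    have h5 : |fT - y| * 1 ≤ |fT - y| * (fT + y) :=
      mul_le_mul_of_nonneg_left (by linarith) (abs_nonneg _)
    have h6 : |fT - y| * (fT + y) = |aeval T (fM ^ 2 - FF I n)| := by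
      rw [map_sub, map_pow, ← hy2, ← hfT, show fT ^ 2 - y ^ 2 = (fT - y) * (fT + y) by ring, abs_mul,
        abs_of_nonneg (show 0 ≤ fT + y by linarith)]
    rw [mul_one, h6] at h5
    exact h5.trans h2
  have h8 : |aeval T B| ≤ W := by
    have h := aeval_le B (Z := 8 * N) (T := T) (by positivity) hT0.le hZT1 0
      (B.natDegree + 1) (Nat.lt_succ_self _) (by simp)
    rw [pow_zero, one_mul] at h
    exact h.trans (hW _)
  -- the value
  have h9 : ((hm A s q b * b ^ k - 1 * (hm B s q b * Y) : ℤ) : ℝ) =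
      (b : ℝ) ^ (s + k) * (aeval T A - aeval T B * y) := by
    push_cast
    rw [hm_real A hAd q hb.ne', hm_real B hBd q hb.ne', ← hT, hy, pow_add]
    field_simp
  have h10 : aeval T A - aeval T B * y = aeval T (A - B * fM) + aeval T B * (fT - y) := by
    rw [map_sub, map_mul, ← hfT]
    ring
  rw [h9, abs_mul, abs_of_pos (show (0 : ℝ) < (b : ℝ) ^ (s + k) by positivity), mul_assoc]
  refine mul_le_mul_of_nonneg_left ?_ (by positivity)
  rw [h10]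
  have h11 : |aeval T B * (fT - y)| ≤ W * ((8 * N * T) ^ M * (16 ^ k + 4 ^ k)) := by
    rw [abs_mul]
    exact mul_le_mul h8 h7 (abs_nonneg _) hW0
  calc |aeval T (A - B * fM) + aeval T B * (fT - y)|
      ≤ |aeval T (A - B * fM)| + |aeval T B * (fT - y)| := abs_add_le _ _
    _ ≤ (8 * N * T) ^ M * (4 ^ k * W + W * 4 ^ k) + W * ((8 * N * T) ^ M * (16 ^ k + 4 ^ k)) :=
        add_le_add h1 h11
    _ = (8 * N * T) ^ M * ((3 * 4 ^ k + 16 ^ k) * W) := by ring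
    _ ≤ (8 * N * T) ^ M * (4 * 16 ^ k * W) := by
        refine mul_le_mul_of_nonneg_left ?_ (by positivity)
        refine mul_le_mul_of_nonneg_right ?_ hW0
        rw [h16]
        nlinarith

end

end Pool.Agent.W8ef934h40
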