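import Mathlib
import Pool.Agent.W_8ef934_h40.Size
import Pool.Agent.W_8ef934_h40.Siegel

/-!
MP_8ef934_nt (helper40): existence of good approximations with nonvanishing values.
-/

set_option autoImplicit false

namespace Pool.Agent.W8ef934h40

open Polynomial

/-- the bound for the coefficients -/
noncomputable def WW (N k r : ℕ) : ℝ :=
  ((k * r + 1 : ℕ) : ℝ) * (((k * r + 1 : ℕ) : ℝ) * (4 ^ k * (8 * (N : ℝ)) ^ (2 * k * r))) ^ r

theorem log16 : (2.77 : ℝ) ≤ Real.log 16 := by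
  rw [show (16 : ℝ) = 2 ^ 4 by norm_num, Real.log_pow]
  have := Real.log_two_gt_d9
  push_cast
  linarith

theorem log_le {N : ℕ} (hN : 2 ≤ N) : Real.log 16 ≤ Real.log (8 * N) := by
  apply Real.log_le_log (by norm_num)
  have : (2 : ℝ) ≤ N := by exact_mod_cast hN
  linarith

theorem log4_le {N : ℕ} (hN : 2 ≤ N) : 2 * Real.log 4 ≤ Real.log (8 * N) := by
  have h := log_le hN
  rw [show (16 : ℝ) = 4 ^ 2 by norm_num, Real.log_pow] at h
  push_cast at h
  exact h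

theorem WW_pos {N : ℕ} (hN : 2 ≤ N) (k r : ℕ) : 0 < WW N k r := by
  have : (2 : ℝ) ≤ N := by exact_mod_cast hN
  unfold WW
  positivity

theorem log_WW {N k r : ℕ} (hN : 2 ≤ N) (hk : 1 ≤ k) (hr : 2 ≤ r) :
    Real.log (WW N k r) ≤ 3 * (k * (r : ℝ) ^ 2 * Real.log (8 * N)) := by
  have hN' : (2 : ℝ) ≤ N := by exact_mod_cast hN
  have hk' : (1 : ℝ) ≤ k := by exact_mod_cast hk
  have hr' : (2 : ℝ) ≤ r := by exact_mod_cast hr
  have hl := log16.trans (log_le hN)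
  have h4 := log4_le hN
  set l : ℝ := Real.log (8 * N) with hl'
  have h1 : Real.log ((k * r + 1 : ℕ) : ℝ) ≤ k * r := by
    have := Real.log_le_sub_one_of_pos (show (0 : ℝ) < ((k * r + 1 : ℕ) : ℝ) by positivity)
    push_cast at this ⊢
    linarith
  unfold WW
  rw [Real.log_mul (by positivity) (by positivity), Real.log_pow, Real.log_mul (by positivity) (by positivity),
    Real.log_mul (by positivity) (by positivity), Real.log_pow, Real.log_pow, ← hl']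
  push_cast at h1 ⊢
  have hkr : (2 : ℝ) ≤ k * r := by nlinarith
  have h2 : (k : ℝ) * Real.log 4 ≤ k * (l / 2) := mul_le_mul_of_nonneg_left (by linarith) (by linarith)
  have h3 : Real.log ((k : ℝ) * r + 1) + k * Real.log 4 + 2 * k * r * l ≤ k * r + k * (l / 2) + 2 * k * r * l := by
    linarith
  have h5 : (r : ℝ) * (Real.log ((k : ℝ) * r + 1) + (k * Real.log 4 + 2 * k * r * l)) ≤
      r * (k * r + k * (l / 2) + 2 * k * r * l) := mul_le_mul_of_nonneg_left (by linarith) (by linarith)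
  have h6 : (k : ℝ) * r ≤ k * r ^ 2 / 2 := by nlinarith
  have h7 : (k : ℝ) * r * l ≤ k * r ^ 2 * l / 2 := by
    have := mul_le_mul_of_nonneg_right h6 (show (0 : ℝ) ≤ l by linarith)
    linarith
  have h8 : (k : ℝ) * r ^ 2 * 2.77 ≤ k * r ^ 2 * l := mul_le_mul_of_nonneg_left hl (by positivity)
  nlinarith

theorem nrm_B {Z H : ℝ} (hZ : 1 ≤ Z) (hH : 0 ≤ H) (B : ℤ[X]) (s : ℕ) (h0 : ∀ j, s < j → B.coeff j = 0)
    (hB : ∀ j, |((B.coeff j : ℤ) : ℝ)| ≤ H) (J : ℕ) :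
    nrm (1 / Z) J (B : PowerSeries ℤ) ≤ ((s + 1 : ℕ) : ℝ) * H := by
  refine (nrm_mono (by positivity) (Nat.le_add_right J (s + 1)) _).trans ?_
  unfold nrm
  simp only [Polynomial.coeff_coe]
  rw [← Finset.sum_subset (s₁ := Finset.range (s + 1))]
  · calc ∑ j ∈ Finset.range (s + 1), |((B.coeff j : ℤ) : ℝ)| * (1 / Z) ^ j
        ≤ ∑ _j ∈ Finset.range (s + 1), H := by
          refine Finset.sum_le_sum fun j _ => ?_
          have h1 : (1 / Z) ^ j ≤ 1 := pow_le_one₀ (by positivity) (by rw [div_le_one (by linarith)]; exact hZ)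
          calc |((B.coeff j : ℤ) : ℝ)| * (1 / Z) ^ j ≤ H * 1 := by
                apply mul_le_mul (hB j) h1 (by positivity) hH
            _ = H := mul_one _
      _ = ((s + 1 : ℕ) : ℝ) * H := by rw [Finset.sum_const, Finset.card_range, nsmul_eq_mul]
  · intro x hx
    rw [Finset.mem_range] at hx ⊢
    omega
  · intro x _ hx
    rw [Finset.mem_range] at hx
    rw [h0 x (by omega)]
    simp

theorem exists_B {N k r : ℕ} (hN : 2 ≤ N) (hk : 1 ≤ k) (hr : 2 ≤ r) (I : Finset ℕ) (n : ℕ → ℕ)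
    (hI : I.card = 2 * k) (hn : ∀ x ∈ I, n x < N) :
    ∃ B : ℤ[X], B ≠ 0 ∧ B.natDegree ≤ k * r ∧
      (∀ j, k * r < j → j < k * (2 * r - 1) + 1 → PowerSeries.coeff j ((B : PowerSeries ℤ) * ff I n) = 0) ∧
      ∀ J, nrm (1 / (8 * N)) J (B : PowerSeries ℤ) ≤ WW N k r := by
  have hN' : (2 : ℝ) ≤ N := by exact_mod_cast hN
  have hX : (1 : ℝ) ≤ 8 * N := by linarith
  have hMle : k * (2 * r - 1) + 1 ≤ 2 * k * r := by
    obtain ⟨r', rfl⟩ : ∃ r', r = r' + 1 := ⟨r - 1, by omega⟩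
    have : 2 * (r' + 1) - 1 = 2 * r' + 1 := by omega
    rw [this]
    nlinarith
  obtain ⟨B, hB0, hBd, hBc, hB⟩ := pade (ff I n) k r hk hr (4 ^ k * (8 * (N : ℝ)) ^ (2 * k * r))
    (by
      have h1 : (1 : ℝ) ≤ 4 ^ k := one_le_pow₀ (by norm_num)
      have h2 : (1 : ℝ) ≤ (8 * (N : ℝ)) ^ (2 * k * r) := one_le_pow₀ hX
      nlinarith)
    (by
      intro j hj
      have h1 := coeff_le_nrm (r := 1 / (8 * (N : ℝ))) (by positivity) (ff I n) (Nat.lt_succ_self j)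
      have h2 := h1.trans (nrm_ff I n hn _)
      rw [hI, pow_mul] at h2
      have h3 : |((PowerSeries.coeff j (ff I n) : ℤ) : ℝ)| =
          (|((PowerSeries.coeff j (ff I n) : ℤ) : ℝ)| * (1 / (8 * (N : ℝ))) ^ j) * (8 * (N : ℝ)) ^ j := by
        rw [mul_assoc, ← mul_pow, one_div_mul_cancel (by linarith), one_pow, mul_one]
      rw [h3]
      refine mul_le_mul (h2.trans (le_of_eq (by norm_num))) ?_ (by positivity) (by positivity)
      exact pow_le_pow_right₀ hX (by omega))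
  refine ⟨B, hB0, ?_, hB, fun J => ?_⟩
  · rw [Polynomial.natDegree_le_iff_coeff_eq_zero]
    intro j hj
    exact hBd j hj
  · exact nrm_B hX (by positivity) B (k * r) hBd hBc J

theorem hm_add (p : ℤ[X]) {d : ℕ} (hd : p.natDegree ≤ d) (e : ℕ) (x : ℤ) {y : ℤ} (hy : y ≠ 0) :
    hm p (d + e) x y = hm p d x y * y ^ e := by
  have h : ((hm p (d + e) x y : ℤ) : ℝ) = ((hm p d x y * y ^ e : ℤ) : ℝ) := by
    push_cast
    rw [hm_real _ (hd.trans (Nat.le_add_right _ _)) x hy, hm_real p hd x hy, pow_add]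
    ring
  exact_mod_cast h

/-- the values do not vanish -/
theorem g_ne {N k s : ℕ} {W : ℝ} (hN : 2 ≤ N) (hk : 1 ≤ k) (I : Finset ℕ) (n : ℕ → ℕ)
    (hI : I.card = 2 * k) (hn : ∀ x ∈ I, n x < N) (hinj : ∀ x ∈ I, ∀ y ∈ I, n x = n y → x = y)
    (B : ℤ[X]) (hB0 : B ≠ 0) (hBd : B.natDegree ≤ s)
    (hW : ∀ J, nrm (1 / (8 * N)) J (B : PowerSeries ℤ) ≤ W)
    {q b Y : ℤ} (hq : 0 < q) (hb : 0 < b) (hqb : IsCoprime q b) (hY : Y ^ 2 = ∏ i ∈ I, (b + 4 * q * n i))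
    (hbig : (8 * (N : ℝ)) ^ (2 * s + 2 * k) * (2 * 16 ^ k * W ^ 2) < q) :
    (hm (PowerSeries.trunc (s + 1) ((B : PowerSeries ℤ) * ff I n)) s q b * b ^ k -
      1 * (hm B s q b * Y)) * (hm (PowerSeries.trunc (s + 1) ((B : PowerSeries ℤ) * ff I n)) s q b * b ^ k -
      (-1) * (hm B s q b * Y)) ≠ 0 := by
  have hN' : (2 : ℝ) ≤ N := by exact_mod_cast hN
  have hX : (1 : ℝ) ≤ 8 * N := by linarith
  have hr : (0 : ℝ) ≤ 1 / (8 * N) := by positivity
  have hW0 : 0 ≤ W := (nrm_nonneg hr 0 _).trans (hW 0)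
  have hFn : ∀ J, nrm (1 / (8 * N)) J (FF I n : PowerSeries ℤ) ≤ 4 ^ k := by
    intro J
    have h := nrm_FF I n hn J
    rw [hI, pow_mul] at h
    refine h.trans (le_of_eq ?_)
    norm_num
  set A : ℤ[X] := PowerSeries.trunc (s + 1) ((B : PowerSeries ℤ) * ff I n) with hA
  have hAd : A.natDegree ≤ s := Nat.lt_succ_iff.1 (PowerSeries.natDegree_trunc_lt _ s)
  have hAn : ∀ J, nrm (1 / (8 * N)) J (A : PowerSeries ℤ) ≤ 4 ^ k * W := nrm_A I n hI hn B s hW
  -- a nonzero `n`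
  obtain ⟨z, hz, hnz⟩ : ∃ z ∈ I, n z ≠ 0 := by
    by_contra hcon
    push Not at hcon
    have h1 : I.card ≤ 1 := Finset.card_le_one.2 fun x hx y hy =>
      hinj x hx y hy ((hcon x hx).trans (hcon y hy).symm)
    omega
  set D : ℤ[X] := A ^ 2 - B ^ 2 * FF I n with hD
  have hD0 : D ≠ 0 := sq_ne A B hB0 I n hinj hz hnz
  have hA2 : (A ^ 2).natDegree ≤ s + s := by
    rw [pow_two]; exact natDegree_mul_le.trans (add_le_add hAd hAd)
  have hB2 : (B ^ 2).natDegree ≤ s + s := by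
    rw [pow_two]; exact natDegree_mul_le.trans (add_le_add hBd hBd)
  have hFd := natDegree_FF I n
  have hDd : D.natDegree ≤ (s + s) + I.card := by
    refine (natDegree_sub_le _ _).trans (max_le (hA2.trans (Nat.le_add_right _ _)) ?_)
    exact natDegree_mul_le.trans (add_le_add hB2 hFd)
  have hval : (hm A s q b * b ^ k - 1 * (hm B s q b * Y)) * (hm A s q b * b ^ k - (-1) * (hm B s q b * Y)) =
      hm D ((s + s) + I.card) q b := by
    rw [hD, hm_sub, hm_add _ hA2 _ q hb.ne', pow_two A, hm_mul A A hAd hAd q hb.ne',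
      hm_mul (B ^ 2) (FF I n) hB2 hFd q hb.ne', pow_two B, hm_mul B B hBd hBd q hb.ne', hm_FF I n q hb.ne', ← hY,
      hI, two_mul, pow_add]
    ring
  rw [hval]
  intro h0
  obtain ⟨j, hj, hj0, hqj⟩ := dvd_of_hm_eq_zero D hD0 hDd hq.ne' hqb h0
  have h1 : q ≤ |D.coeff j| := Int.le_of_dvd (abs_pos.2 hj0) ((dvd_abs _ _).2 hqj)
  have h2 : (q : ℝ) ≤ |((D.coeff j : ℤ) : ℝ)| := by exact_mod_cast h1
  have hDn : nrm (1 / (8 * N)) (j + 1) (D : PowerSeries ℤ) ≤ 2 * 16 ^ k * W ^ 2 := by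
    have e : (D : PowerSeries ℤ) = (A : PowerSeries ℤ) * A - ((B : PowerSeries ℤ) * B) * FF I n := by
      rw [hD, Polynomial.coe_sub, Polynomial.coe_mul, Polynomial.coe_pow, Polynomial.coe_pow, sq, sq]
    rw [e]
    have hA0 := nrm_nonneg hr (j + 1) (A : PowerSeries ℤ)
    have hB0' := nrm_nonneg hr (j + 1) (B : PowerSeries ℤ)
    have hF0 := nrm_nonneg hr (j + 1) (FF I n : PowerSeries ℤ)
    have a1 : nrm (1 / (8 * N)) (j + 1) ((A : PowerSeries ℤ) * A) ≤ (4 ^ k * W) * (4 ^ k * W) :=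
      (nrm_mul hr _ _ _).trans (mul_le_mul (hAn _) (hAn _) hA0 (by positivity))
    have a2 : nrm (1 / (8 * N)) (j + 1) ((B : PowerSeries ℤ) * B) ≤ W * W :=
      (nrm_mul hr _ _ _).trans (mul_le_mul (hW _) (hW _) hB0' (by positivity))
    have a3 : nrm (1 / (8 * N)) (j + 1) (((B : PowerSeries ℤ) * B) * FF I n) ≤ (W * W) * 4 ^ k :=
      (nrm_mul hr _ _ _).trans (mul_le_mul a2 (hFn _) hF0 (by positivity))
    refine (nrm_sub hr _ _ _).trans ((add_le_add a1 a3).trans ?_)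
    have h16 : (16 : ℝ) ^ k = 4 ^ k * 4 ^ k := by rw [← mul_pow]; norm_num
    have h4k : (1 : ℝ) ≤ 4 ^ k := one_le_pow₀ (by norm_num)
    have h5 : (4 : ℝ) ^ k ≤ 4 ^ k * 4 ^ k := by nlinarith
    rw [h16]
    nlinarith [mul_le_mul_of_nonneg_left h5 (mul_nonneg hW0 hW0)]
  have h3 := (coeff_le_nrm hr (D : PowerSeries ℤ) (Nat.lt_succ_self j)).trans hDn
  rw [Polynomial.coeff_coe] at h3
  have h4 : |((D.coeff j : ℤ) : ℝ)| ≤ (8 * (N : ℝ)) ^ (2 * s + 2 * k) * (2 * 16 ^ k * W ^ 2) := by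
    calc |((D.coeff j : ℤ) : ℝ)| = (8 * (N : ℝ)) ^ j * (|((D.coeff j : ℤ) : ℝ)| * (1 / (8 * (N : ℝ))) ^ j) := by
          rw [mul_left_comm, ← mul_pow, mul_one_div_cancel (by linarith), one_pow, mul_one]
      _ ≤ (8 * (N : ℝ)) ^ (2 * s + 2 * k) * (2 * 16 ^ k * W ^ 2) := by
          refine mul_le_mul (pow_le_pow_right₀ hX (by omega)) h3 (by positivity) (by positivity)
  linarith

end Pool.Agent.W8ef934h40
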