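import Mathlib
import Pool.Agent.W_8ef934_h40.NonV

/-!
MP_8ef934_nt (helper40): near orthogonality of the sign vectors of the products of square roots.
-/

set_option autoImplicit false

namespace Pool.Agent.W8ef934h40

open Polynomial

theorem dvd_log (S : Finset ℕ) (hS : ∀ p ∈ S, p.Prime) (v : ℕ → ℕ) (M : ℕ) {g : ℤ} (hg : g ≠ 0)
    (h : ∀ p ∈ S, (p : ℤ) ^ (v p * M) ∣ g) :
    (M : ℝ) * ∑ p ∈ S, (v p : ℝ) * Real.log p ≤ Real.log |(g : ℝ)| := by
  have h1 : (∏ p ∈ S, (p : ℤ) ^ (v p * M)) ∣ g := by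
    refine Finset.prod_dvd_of_coprime ?_ h
    intro p hp p' hp' hne
    have hc : Nat.Coprime p p' := (Nat.coprime_primes (hS p hp) (hS p' hp')).2 hne
    exact (Nat.isCoprime_iff_coprime.2 hc).pow
  have h2 : (∏ p ∈ S, (p : ℤ) ^ (v p * M)) ≤ |g| := Int.le_of_dvd (abs_pos.2 hg) ((dvd_abs _ _).2 h1)
  have h3 : (∏ p ∈ S, (p : ℝ) ^ (v p * M)) ≤ |(g : ℝ)| := by exact_mod_cast h2
  have h4 : ∀ p ∈ S, (0 : ℝ) < (p : ℝ) ^ (v p * M) := fun p hp => by
    have : (0 : ℝ) < p := by exact_mod_cast (hS p hp).pos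
    positivity
  have h5 := Real.log_le_log (Finset.prod_pos h4) h3
  rw [Real.log_prod (fun p hp => (h4 p hp).ne')] at h5
  refine le_trans (le_of_eq ?_) h5
  rw [Finset.mul_sum]
  refine Finset.sum_congr rfl fun p _ => ?_
  rw [Real.log_pow]
  push_cast
  ring

theorem log_eq {q : ℕ} (hq : 0 < q) :
    Real.log q = ∑ p ∈ q.primeFactors, (q.factorization p : ℝ) * Real.log p := by
  conv_lhs => rw [← Nat.prod_factorization_pow_eq_self hq.ne']
  rw [Finsupp.prod, Nat.support_factorization]
  push_cast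
  rw [Real.log_prod]
  · refine Finset.sum_congr rfl fun p _ => ?_
    rw [Real.log_pow]
  · intro p hp
    have : (p : ℝ) ≠ 0 := by exact_mod_cast (Nat.prime_of_mem_primeFactors hp).ne_zero
    positivity

theorem key_real {k r La l : ℝ} (hk : 1 ≤ k) (hr : 2 ≤ r) (hLa : 0 ≤ La) (hl : 0 ≤ l) :
    k * (r + 1) * La + 6 * (k * r ^ 2 * l) ≤ (k * (2 * r - 1) + 1) * (La / 2 + La / r + 4 * r * l) := by
  have hr0 : r ≠ 0 := by linarith
  obtain ⟨u, hu⟩ : ∃ u, u = La / r := ⟨_, rfl⟩
  have hu0 : 0 ≤ u := by rw [hu]; positivity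
  have hLu : La = u * r := by rw [hu]; field_simp
  rw [← hu, hLu]
  have h1 : 0 ≤ u * (k * (r - 2) + r + 2) := by
    have : 0 ≤ k * (r - 2) := mul_nonneg (by linarith) (by linarith)
    exact mul_nonneg hu0 (by linarith)
  have h2 : 0 ≤ l * (2 * (k * (r * (r - 2))) + 4 * r) := by
    have : 0 ≤ k * (r * (r - 2)) := mul_nonneg (by linarith) (mul_nonneg (by linarith) (by linarith))
    exact mul_nonneg hl (by linarith)
  nlinarith

/-- near orthogonality -/
theorem near_orth {N k r : ℕ} (hN : 2 ≤ N) (hk : 1 ≤ k) (hr : 2 ≤ r) (I : Finset ℕ) (n : ℕ → ℕ)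
    (hI : I.card = 2 * k) (hn : ∀ x ∈ I, n x < N) (hinj : ∀ x ∈ I, ∀ y ∈ I, n x = n y → x = y)
    {q b : ℕ} (hq : 0 < q) (hb : 0 < b) (hqb : Nat.Coprime q b)
    {Y : ℤ} (hY0 : 0 < Y) (hY : Y ^ 2 = ∏ i ∈ I, ((b : ℤ) + 4 * (q : ℤ) * n i))
    (hL : 12 * (k * (r : ℝ) ^ 2 * Real.log (8 * N)) ≤ Real.log q)
    (sg : ℕ → ℤ) (hsg : ∀ p ∈ q.primeFactors, sg p = 1 ∨ sg p = -1)
    (hd : ∀ p ∈ q.primeFactors, (if p = 2 then 4 else (p : ℤ)) ∣ Y - sg p * (b : ℤ) ^ k) :
    |∑ p ∈ q.primeFactors, ((q.factorization p : ℝ) * Real.log p) * (sg p : ℝ) +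
      (Real.log (max q b : ℕ) - Real.log q)| ≤
      2 * (Real.log (max q b : ℕ) / r + 5 * r * Real.log (8 * N) + 3 * k) := by
  classical
  have hN' : (2 : ℝ) ≤ N := by exact_mod_cast hN
  have hk' : (1 : ℝ) ≤ k := by exact_mod_cast hk
  have hr' : (2 : ℝ) ≤ r := by exact_mod_cast hr
  have hq' : (0 : ℝ) < q := by exact_mod_cast hq
  have hb' : (0 : ℝ) < b := by exact_mod_cast hb
  have hqz : (0 : ℤ) < q := by exact_mod_cast hq
  have hbz : (0 : ℤ) < b := by exact_mod_cast hb
  have hqbz : IsCoprime (q : ℤ) (b : ℤ) := Nat.isCoprime_iff_coprime.2 hqb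
  have hl := log16.trans (log_le hN)
  have h4 := log4_le hN
  have hWl := log_WW hN hk hr
  have hWpos := WW_pos hN k r
  have h40 : 0 < Real.log 4 := Real.log_pos (by norm_num)
  have h24 : Real.log 4 = 2 * Real.log 2 := by
    rw [show (4 : ℝ) = 2 ^ 2 by norm_num, Real.log_pow]; push_cast; ring
  have h164 : Real.log 16 = 2 * Real.log 4 := by
    rw [show (16 : ℝ) = 4 ^ 2 by norm_num, Real.log_pow]; push_cast; ring
  set l : ℝ := Real.log (8 * N) with hldef
  set W : ℝ := WW N k r with hW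
  set m : ℕ := max q b with hm'
  have hmq : q ≤ m := le_max_left _ _
  have hmb : b ≤ m := le_max_right _ _
  have hm0 : (0 : ℝ) < (m : ℝ) := by exact_mod_cast lt_of_lt_of_le hq hmq
  have hmq' : (q : ℝ) ≤ m := by exact_mod_cast hmq
  have hmb' : (b : ℝ) ≤ m := by exact_mod_cast hmb
  set La : ℝ := Real.log (m : ℝ) with hLa
  set L : ℝ := Real.log q with hLdef
  have hLaL : L ≤ La := Real.log_le_log hq' hmq'
  have hL0 : 0 ≤ L := Real.log_natCast_nonneg q
  have hLa0 : 0 ≤ La := hL0.trans hLaL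
  set P : ℝ := k * (r : ℝ) ^ 2 * l with hP
  have hr2 : (4 : ℝ) ≤ (r : ℝ) ^ 2 := by
    have h1 := pow_le_pow_left₀ (by norm_num : (0 : ℝ) ≤ 2) hr' 2
    linarith
  have hkl : (k : ℝ) * l * 4 ≤ P := by
    have h1 : (0 : ℝ) ≤ k * l := by positivity
    have h2 : (k : ℝ) * l * 4 ≤ k * l * (r : ℝ) ^ 2 := mul_le_mul_of_nonneg_left hr2 h1
    have e : P = k * l * (r : ℝ) ^ 2 := by rw [hP]; ring
    rw [e]
    exact h2
  have hll : l * 4 ≤ P := by
    have : l ≤ k * l := le_mul_of_one_le_left (by linarith) hk'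
    linarith
  have hkrl : (k : ℝ) * r * l * 2 ≤ P := by
    have h1 : (0 : ℝ) ≤ k * r * l := by positivity
    have h2 : (k : ℝ) * r * l * 2 ≤ k * r * l * r := mul_le_mul_of_nonneg_left hr' h1
    have e : P = k * r * l * r := by rw [hP]; ring
    rw [e]
    exact h2
  -- the approximation
  set M : ℕ := k * (2 * r - 1) + 1 with hM
  have hMpos : 0 < M := Nat.succ_pos _
  have hMr : (M : ℝ) = k * (2 * r - 1) + 1 := by
    rw [hM]
    push_cast [Nat.cast_sub (show 1 ≤ 2 * r by omega)]
    ring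
  have hM0 : (0 : ℝ) < M := by exact_mod_cast hMpos
  obtain ⟨B, hB0, hBd, hB, hBW⟩ := exists_B hN hk hr I n hI hn
  rw [← hW] at hBW
  have hgne := g_ne (s := k * r) (W := W) hN hk I n hI hn hinj B hB0 hBd hBW hqz hbz hqbz hY (by
    have hpos : 0 < (8 * (N : ℝ)) ^ (2 * (k * r) + 2 * k) * (2 * 16 ^ k * W ^ 2) := by positivity
    rw [Int.cast_natCast, ← Real.log_lt_log_iff hpos hq']
    rw [Real.log_mul (by positivity) (by positivity), Real.log_mul (by positivity) (by positivity),
      Real.log_mul (by positivity) (by positivity), Real.log_pow, Real.log_pow, Real.log_pow, ← hldef]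
    push_cast
    have a1 : (2 * ((k : ℝ) * r) + 2 * k) * l ≤ 3 * (k * r * l) := by
      have : (k : ℝ) * l * 2 ≤ k * l * r := mul_le_mul_of_nonneg_left hr' (by positivity)
      linarith
    have a2 : (k : ℝ) * Real.log 16 ≤ k * l := by
      rw [h164]
      exact mul_le_mul_of_nonneg_left h4 (by positivity)
    have a3 : 0 < P := by linarith
    linarith)
  set gm : ℤ := hm (PowerSeries.trunc (k * r + 1) ((B : PowerSeries ℤ) * ff I n)) (k * r) q b * (b : ℤ) ^ k -
      1 * (hm B (k * r) q b * Y) with hgm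
  set gp : ℤ := hm (PowerSeries.trunc (k * r + 1) ((B : PowerSeries ℤ) * ff I n)) (k * r) q b * (b : ℤ) ^ k -
      (-1) * (hm B (k * r) q b * Y) with hgp
  have hgm0 : gm ≠ 0 := left_ne_zero_of_mul hgne
  have hgp0 : gp ≠ 0 := right_ne_zero_of_mul hgne
  -- divisibility
  have hdiv : ∀ p ∈ q.primeFactors, ∀ σ : ℤ, σ ^ 2 = 1 → sg p = σ →
      (p : ℤ) ^ (q.factorization p * M) ∣ 2 * (hm (PowerSeries.trunc (k * r + 1)
        ((B : PowerSeries ℤ) * ff I n)) (k * r) q b * (b : ℤ) ^ k - σ * (hm B (k * r) q b * Y)) := by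
    intro p hp σ hσ hs
    have hpp := Nat.prime_of_mem_primeFactors hp
    refine main_dvd I n hI B (k * r) M hMpos hBd hB hbz.ne' hY hqbz hpp
      (hpp.factorization_pos_of_dvd hq.ne' (Nat.dvd_of_mem_primeFactors hp)) ?_ hσ ?_
    · exact_mod_cast Nat.ordProj_dvd q p
    · rw [← hs]
      exact hd p hp
  set SE := q.primeFactors.filter (fun p => sg p = 1) with hSE
  set SO := q.primeFactors.filter (fun p => ¬ sg p = 1) with hSO
  set lE : ℝ := ∑ p ∈ SE, (q.factorization p : ℝ) * Real.log p with hlE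
  set lO : ℝ := ∑ p ∈ SO, (q.factorization p : ℝ) * Real.log p with hlO
  have hsum : lE + lO = L := by
    rw [hLdef, log_eq hq]
    exact Finset.sum_filter_add_sum_filter_not _ _ _
  have hsum2 : ∑ p ∈ q.primeFactors, ((q.factorization p : ℝ) * Real.log p) * (sg p : ℝ) = lE - lO := by
    rw [← Finset.sum_filter_add_sum_filter_not q.primeFactors (fun p => sg p = 1), hlE, hlO, sub_eq_add_neg,
      ← Finset.sum_neg_distrib]
    congr 1
    · refine Finset.sum_congr rfl fun p hp => ?_
      rw [(Finset.mem_filter.1 hp).2]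
      simp
    · refine Finset.sum_congr rfl fun p hp => ?_
      rw [(hsg p (Finset.mem_filter.1 hp).1).resolve_left (Finset.mem_filter.1 hp).2]
      simp
  have hE1 : (M : ℝ) * lE ≤ Real.log |((2 * gm : ℤ) : ℝ)| := by
    refine dvd_log SE (fun p hp => Nat.prime_of_mem_primeFactors (Finset.mem_filter.1 hp).1) _ M
      (mul_ne_zero two_ne_zero hgm0) fun p hp => ?_
    exact hdiv p (Finset.mem_filter.1 hp).1 1 (by norm_num) (Finset.mem_filter.1 hp).2
  have hO1 : (M : ℝ) * lO ≤ Real.log |((2 * gp : ℤ) : ℝ)| := by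
    refine dvd_log SO (fun p hp => Nat.prime_of_mem_primeFactors (Finset.mem_filter.1 hp).1) _ M
      (mul_ne_zero two_ne_zero hgp0) fun p hp => ?_
    exact hdiv p (Finset.mem_filter.1 hp).1 (-1) (by norm_num)
      ((hsg p (Finset.mem_filter.1 hp).1).resolve_left (Finset.mem_filter.1 hp).2)
  -- sizes
  have hsize : ∀ g : ℤ, g ≠ 0 → |(g : ℝ)| ≤ ((m : ℝ) * (8 * N)) ^ (k * r + k) * (2 * 4 ^ k * W) →
      Real.log |((2 * g : ℤ) : ℝ)| ≤ k * (r + 1) * La + 6 * P := by
    intro g hg hle
    have hg' : (0 : ℝ) < |(g : ℝ)| := abs_pos.2 (by exact_mod_cast hg)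
    have h1 : |((2 * g : ℤ) : ℝ)| = 2 * |(g : ℝ)| := by
      push_cast
      rw [abs_mul]
      norm_num
    rw [h1]
    refine (Real.log_le_log (by positivity) (mul_le_mul_of_nonneg_left hle (by norm_num))).trans ?_
    rw [Real.log_mul (by norm_num) (by positivity), Real.log_mul (by positivity) (by positivity),
      Real.log_mul (by positivity) (by positivity), Real.log_mul (by positivity) (by positivity),
      Real.log_pow, Real.log_pow, Real.log_mul (by positivity) (by positivity), ← hldef, ← hLa]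
    push_cast
    have a1 : (k : ℝ) * Real.log 4 * 2 ≤ k * l := by
      have := mul_le_mul_of_nonneg_left h4 (show (0 : ℝ) ≤ k by linarith)
      linarith
    have a2 : ((k : ℝ) * r + k) * (La + l) = k * (r + 1) * La + k * r * l + k * l := by ring
    rw [a2]
    linarith
  have hEa : (M : ℝ) * lE ≤ k * (r + 1) * La + 6 * P := hE1.trans (hsize gm hgm0
    (g_le I n hI (by omega) hn B (k * r) hBW hqz hbz hY (by exact_mod_cast hmq') (by exact_mod_cast hmb')
      (by norm_num)))
  have hOa : (M : ℝ) * lO ≤ k * (r + 1) * La + 6 * P := hO1.trans (hsize gp hgp0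
    (g_le I n hI (by omega) hn B (k * r) hBW hqz hbz hY (by exact_mod_cast hmq') (by exact_mod_cast hmb')
      (by norm_num)))
  have hkey := key_real (k := k) (r := r) (La := La) (l := l) hk' hr' hLa0 (by linarith)
  rw [← hMr, ← hP] at hkey
  have hO : lO ≤ La / 2 + La / r + 4 * r * l := le_of_mul_le_mul_left (hOa.trans hkey) hM0
  have hE : lE ≤ La / 2 + La / r + 4 * r * l := le_of_mul_le_mul_left (hEa.trans hkey) hM0
  have hrl : 2 * l ≤ r * l := mul_le_mul_of_nonneg_right hr' (by linarith)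
  have hE' : lE ≤ L - La / 2 + La / r + 5 * r * l + 3 * k := by
    by_cases hcase : 4 ^ (k + 1) * (8 * (N : ℝ)) * q ≤ b
    · have hqb' : q ≤ b := by
        have h1 : (1 : ℝ) ≤ 4 ^ (k + 1) * (8 * (N : ℝ)) := by
          have : (1 : ℝ) ≤ 4 ^ (k + 1) := one_le_pow₀ (by norm_num)
          exact one_le_mul_of_one_le_of_one_le this (by linarith)
        have h2 : (q : ℝ) ≤ b := (le_mul_of_one_le_left hq'.le h1).trans hcase
        exact_mod_cast h2
      have hmb2 : m = b := max_eq_right hqb'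
      have hbound := gminus_le I n hI (by omega) hn B (k * r) hBW hMpos hBd hB hqz hbz hY0 hY
        (by exact_mod_cast hcase)
      have hg' : (0 : ℝ) < |(gm : ℝ)| := abs_pos.2 (by exact_mod_cast hgm0)
      have h1 : |((2 * gm : ℤ) : ℝ)| = 2 * |(gm : ℝ)| := by
        push_cast
        rw [abs_mul]
        norm_num
      have hLab : Real.log (b : ℝ) = La := by rw [hLa, hmb2]
      have h2 : Real.log |((2 * gm : ℤ) : ℝ)| ≤ k * (r + 1) * La + 6 * P + M * (L - La) := by
        rw [h1]
        refine (Real.log_le_log (by positivity) (mul_le_mul_of_nonneg_left hbound (by norm_num))).trans ?_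
        rw [Int.cast_natCast, Int.cast_natCast]
        rw [Real.log_mul (by norm_num) (by positivity), Real.log_mul (by positivity) (by positivity),
          Real.log_mul (by positivity) (by positivity), Real.log_mul (by positivity) (by positivity),
          Real.log_mul (by positivity) (by positivity),
          Real.log_pow, Real.log_pow, Real.log_pow, Real.log_mul (by positivity) (by positivity),
          Real.log_div (by positivity) (by positivity), ← hldef, hLab, ← hLdef]
        push_cast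
        have a1 : (k : ℝ) * Real.log 16 ≤ k * l := by
          rw [h164]
          exact mul_le_mul_of_nonneg_left h4 (by positivity)
        have a2 : ((k : ℝ) * r + k) * La = k * (r + 1) * La := by ring
        have a3 : (M : ℝ) * (l + (L - La)) = M * l + M * (L - La) := by ring
        have a4 : (M : ℝ) * l ≤ 2 * (k * r * l) := by
          rw [hMr]
          have : (1 - (k : ℝ)) * l ≤ 0 := mul_nonpos_of_nonpos_of_nonneg (by linarith) (by linarith)
          linarith
        rw [a2, a3]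
        linarith
      have h3 : (M : ℝ) * lE ≤ M * (La / 2 + La / r + 4 * r * l + (L - La)) := by
        rw [mul_add (M : ℝ) _ (L - La)]
        linarith
      have h4' := le_of_mul_le_mul_left h3 hM0
      linarith
    · push Not at hcase
      have h1 : La ≤ L + ((k : ℝ) + 1) * Real.log 4 + l := by
        have h2 : (m : ℝ) ≤ 4 ^ (k + 1) * (8 * (N : ℝ)) * q := by
          have h3 : (1 : ℝ) ≤ 4 ^ (k + 1) * (8 * (N : ℝ)) := by
            have : (1 : ℝ) ≤ 4 ^ (k + 1) := one_le_pow₀ (by norm_num)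
            exact one_le_mul_of_one_le_of_one_le this (by linarith)
          rw [hm', Nat.cast_max]
          exact max_le (le_mul_of_one_le_left hq'.le h3) hcase.le
        have h3 := Real.log_le_log hm0 h2
        rw [Real.log_mul (by positivity) (by positivity), Real.log_mul (by positivity) (by positivity),
          Real.log_pow, ← hldef, ← hLa, ← hLdef] at h3
        push_cast at h3
        linarith
      have h2 : ((k : ℝ) + 1) * Real.log 4 ≤ 3 * k := by
        have h5 : Real.log 4 ≤ 1.4 := by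
          rw [h24]
          have := Real.log_two_lt_d9
          linarith
        have h6 := mul_le_mul_of_nonneg_left h5 (show (0 : ℝ) ≤ (k : ℝ) + 1 by linarith)
        linarith
      linarith
  have hO' : lO ≤ La / 2 + La / r + 5 * r * l + 3 * k := by linarith
  rw [hsum2, abs_le]
  constructor
  · linarith
  · linarith

end Pool.Agent.W8ef934h40
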