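import Mathlib
import Pool.Prelude.Def_F_e853f830
import Pool.Agent.W_8ef934_h95.Eff
import Pool.Agent.W_8ef934_h40.Orth

/-!
MP_8ef934_nt (helper40): the sign vectors of products of square roots, and the Welch bound for them.
-/

set_option autoImplicit false
open Necdea073 Pool.Agent.W8ef934h95

namespace Pool.Agent.W8ef934h40

/-- the modulus without common factors with `4` -/
def qq (q : ℕ) : ℕ := if 4 ∣ q then q / 4 else if 2 ∣ q then q / 2 else q

/-- the complementary factor of `4` -/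
def uu (q : ℕ) : ℕ := if 4 ∣ q then 1 else if 2 ∣ q then 2 else 4

theorem uu_mul (q : ℕ) : uu q * q = 4 * qq q := by
  unfold uu qq
  split_ifs <;> omega

theorem uu_pos (q : ℕ) : 0 < uu q := by
  unfold uu
  split_ifs <;> omega

theorem qq_pos {q : ℕ} (hq : 0 < q) : 0 < qq q := by
  unfold qq
  split_ifs <;> omega

theorem qq_dvd (q : ℕ) : qq q ∣ q := by
  unfold qq
  split_ifs with h1 h2
  · exact Nat.div_dvd_of_dvd h1
  · exact Nat.div_dvd_of_dvd h2
  · exact dvd_rfl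

theorem eight_dvd {q : ℕ} (h : 2 ∣ qq q) : 8 ∣ q := by
  unfold qq at h
  split_ifs at h <;> omega

theorem cop {q a : ℕ} (hqa : Nat.Coprime q a) : Nat.Coprime (qq q) (uu q * a) := by
  refine Nat.Coprime.mul_right ?_ (hqa.coprime_dvd_left (qq_dvd q))
  unfold qq uu
  split_ifs with h1 h2
  · exact Nat.coprime_one_right _
  · rw [Nat.coprime_two_right, Nat.odd_iff]
    omega
  · have h3 : Nat.Coprime q 2 := by
      rw [Nat.coprime_two_right, Nat.odd_iff]
      omega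
    exact Nat.Coprime.pow_right 2 h3

open Classical in
/-- the sign of `x` relative to `x₀` -/
noncomputable def ez (x₀ p x : ℕ) : ℤ := if (if p = 2 then 4 else (p : ℤ)) ∣ (x : ℤ) - x₀ then 1 else -1

theorem ez_sq (x₀ p x : ℕ) : ez x₀ p x * ez x₀ p x = 1 := by
  unfold ez
  split_ifs <;> norm_num

theorem p4_dvd_pw {q p : ℕ} (hq : 0 < q) (hp : p ∈ (qq q).primeFactors) :
    (if p = 2 then 4 else (p : ℤ)) ∣ (pw q p : ℤ) := by
  have hpp := Nat.prime_of_mem_primeFactors hp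
  have hpd := Nat.dvd_of_mem_primeFactors hp
  unfold pw
  split_ifs with h
  · subst h
    have h8 : 2 ^ 3 ∣ q := eight_dvd hpd
    have h3 : 3 ≤ q.factorization 2 := (hpp.pow_dvd_iff_le_factorization hq.ne').1 h8
    have h4 : (2 : ℕ) ^ 2 ∣ 2 ^ (q.factorization 2 - 1) := pow_dvd_pow 2 (by omega)
    have h5 : ((2 ^ 2 : ℕ) : ℤ) ∣ ((2 ^ (q.factorization 2 - 1) : ℕ) : ℤ) := Int.natCast_dvd_natCast.2 h4
    exact h5
  · have h1 : 0 < q.factorization p := hpp.factorization_pos_of_dvd hq.ne' (hpd.trans (qq_dvd q))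
    exact_mod_cast dvd_pow_self p h1.ne'

theorem ez_dvd {N q a : ℕ} (hq : 0 < q) (hqa : Nat.Coprime q a) {x₀ x : ℕ} (h0 : x₀ ∈ sol N q a)
    (hx : x ∈ sol N q a) {p : ℕ} (hp : p ∈ (qq q).primeFactors) :
    (if p = 2 then 4 else (p : ℤ)) ∣ (x : ℤ) - ez x₀ p x * x₀ := by
  obtain ⟨n0, -, h0'⟩ := mem_sol.1 h0
  obtain ⟨n1, -, hx'⟩ := mem_sol.1 hx
  have hp' : p ∈ q.primeFactors := Nat.primeFactors_mono (qq_dvd q) hq.ne' hp
  have h4 := p4_dvd_pw hq hp
  unfold ez
  generalize (if p = 2 then 4 else (p : ℤ)) = d at h4 ⊢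
  split_ifs with h1
  · simpa using h1
  · rcases Sign_dich hqa hx' h0' hp' with h | h
    · exact absurd (h4.trans h) h1
    · have := h4.trans h
      simpa using this

/-- the position of the square of `x` -/
def nn (q a x : ℕ) : ℕ := (x * x - a) / q

theorem nn_spec {N q a x : ℕ} (hq : 0 < q) (hx : x ∈ sol N q a) :
    nn q a x < N ∧ x * x = q * nn q a x + a := by
  obtain ⟨n, hn, h⟩ := mem_sol.1 hx
  have h1 : nn q a x = n := by
    unfold nn
    rw [h, Nat.add_sub_cancel, Nat.mul_div_cancel_left _ hq]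
  rw [h1]
  exact ⟨hn, h⟩

theorem nn_inj {N q a x y : ℕ} (hq : 0 < q) (hx : x ∈ sol N q a) (hy : y ∈ sol N q a)
    (h : nn q a x = nn q a y) : x = y := by
  have h1 := (nn_spec hq hx).2
  have h2 := (nn_spec hq hy).2
  rw [h, ← h2] at h1
  exact Nat.mul_self_inj.1 h1

theorem sol_pos {N q a x : ℕ} (ha : 0 < a) (hx : x ∈ sol N q a) : 0 < x := by
  obtain ⟨n, -, h⟩ := mem_sol.1 hx
  rcases Nat.eq_zero_or_pos x with h0 | h0
  · rw [h0] at h
    omega
  · exact h0

/-- the logarithmic size -/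
noncomputable def lam (q a : ℕ) : ℝ := Real.log (max (qq q) (uu q * a) : ℕ)

/-- near orthogonality for sets of square roots -/
theorem orth_I {N q a k r : ℕ} (hN : 2 ≤ N) (hq : 0 < q) (ha : 0 < a) (hqa : Nat.Coprime q a)
    (hk : 1 ≤ k) (hr : 2 ≤ r) {x₀ : ℕ} (h0 : x₀ ∈ sol N q a) (I : Finset ℕ) (hIs : I ⊆ sol N q a)
    (hI : I.card = 2 * k) (hL : 12 * (k * (r : ℝ) ^ 2 * Real.log (8 * N)) ≤ Real.log (qq q)) :
    |∑ p ∈ (qq q).primeFactors, (((qq q).factorization p : ℝ) * Real.log p) * ((∏ x ∈ I, ez x₀ p x : ℤ) : ℝ) +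
      (lam q a - Real.log (qq q))| ≤
      2 * (lam q a / r + 5 * r * Real.log (8 * N) + 3 * k) := by
  have hu : ∀ x ∈ I, (uu q : ℤ) * x ^ 2 = ((uu q * a : ℕ) : ℤ) + 4 * ((qq q : ℕ) : ℤ) * nn q a x := by
    intro x hx
    have h1 := (nn_spec hq (hIs hx)).2
    have h2 := uu_mul q
    have h1' : (x : ℤ) * x = q * nn q a x + a := by exact_mod_cast h1
    have h2' : (uu q : ℤ) * q = 4 * qq q := by exact_mod_cast h2
    push_cast
    linear_combination (uu q : ℤ) * h1' + (nn q a x : ℤ) * h2'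
  refine near_orth hN hk hr I (nn q a) hI (fun x hx => (nn_spec hq (hIs hx)).1)
    (fun x hx y hy h => nn_inj hq (hIs hx) (hIs hy) h) (qq_pos hq) (Nat.mul_pos (uu_pos q) ha) (cop hqa)
    (Y := (uu q : ℤ) ^ k * ∏ x ∈ I, (x : ℤ)) ?_ ?_ hL (fun p => ∏ x ∈ I, ez x₀ p x) ?_ ?_
  · have h1 : (0 : ℤ) < uu q := by exact_mod_cast uu_pos q
    have h2 : (0 : ℤ) < ∏ x ∈ I, (x : ℤ) :=
      Finset.prod_pos fun x hx => by exact_mod_cast sol_pos ha (hIs hx)
    positivity
  · rw [mul_pow, ← pow_mul, mul_comm k 2, ← hI, ← Finset.prod_const, ← Finset.prod_pow,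
      ← Finset.prod_mul_distrib]
    exact Finset.prod_congr rfl hu
  · intro p _
    have h1 : (∏ x ∈ I, ez x₀ p x) * (∏ x ∈ I, ez x₀ p x) = 1 := by
      rw [← Finset.prod_mul_distrib]
      exact Finset.prod_eq_one fun x _ => ez_sq x₀ p x
    exact mul_self_eq_one_iff.1 h1
  · intro p hp
    have hxy : ∀ x ∈ I, (if p = 2 then 4 else (p : ℤ)) ∣ (x : ℤ) - ez x₀ p x * x₀ := fun x hx =>
      ez_dvd hq hqa h0 (hIs hx) hp
    have h1 : (if p = 2 then 4 else (p : ℤ)) ∣ ∏ x ∈ I, (x : ℤ) - ∏ x ∈ I, (ez x₀ p x * x₀) := by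
      rw [← Int.modEq_iff_dvd]
      refine Int.ModEq.symm ?_
      refine Int.ModEq.symm ?_
      refine Int.ModEq.prod fun x hx => ?_
      rw [Int.modEq_iff_dvd]
      exact hxy x hx
    rw [Finset.prod_mul_distrib, Finset.prod_const, hI] at h1
    have h2 : (if p = 2 then 4 else (p : ℤ)) ∣ ((uu q : ℤ) * x₀ ^ 2) ^ k - ((uu q * a : ℕ) : ℤ) ^ k := by
      refine dvd_trans ?_ (sub_dvd_pow_sub_pow _ _ k)
      have h3 := (nn_spec hq h0).2
      have h4 := uu_mul q
      have h3' : (x₀ : ℤ) * x₀ = q * nn q a x₀ + a := by exact_mod_cast h3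
      have h4' : (uu q : ℤ) * q = 4 * qq q := by exact_mod_cast h4
      have h5 : (uu q : ℤ) * x₀ ^ 2 - ((uu q * a : ℕ) : ℤ) = 4 * ((qq q : ℤ) * nn q a x₀) := by
        push_cast
        linear_combination (uu q : ℤ) * h3' + (nn q a x₀ : ℤ) * h4'
      rw [h5]
      split_ifs with h6
      · exact dvd_mul_right _ _
      · have h7 : (p : ℤ) ∣ (qq q : ℤ) := Int.natCast_dvd_natCast.2 (Nat.dvd_of_mem_primeFactors hp)
        exact (h7.mul_right _).mul_left _
    have e : (uu q : ℤ) ^ k * ∏ x ∈ I, (x : ℤ) - (∏ x ∈ I, ez x₀ p x) * ((uu q * a : ℕ) : ℤ) ^ k =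
        (uu q : ℤ) ^ k * (∏ x ∈ I, (x : ℤ) - (∏ x ∈ I, ez x₀ p x) * (x₀ : ℤ) ^ (2 * k)) +
        (∏ x ∈ I, ez x₀ p x) * (((uu q : ℤ) * x₀ ^ 2) ^ k - ((uu q * a : ℕ) : ℤ) ^ k) := by
      rw [mul_pow, ← pow_mul]
      ring
    show (if p = 2 then 4 else (p : ℤ)) ∣ (uu q : ℤ) ^ k * ∏ x ∈ I, (x : ℤ) -
      (∏ x ∈ I, ez x₀ p x) * ((uu q * a : ℕ) : ℤ) ^ k
    rw [e]
    exact dvd_add (h1.mul_left _) (h2.mul_left _)

/-- the vectors attached to sets of solutions -/
noncomputable def vv (q x₀ : ℕ) (τ : ℝ) (S : Finset ℕ) (p : ℕ) : ℝ :=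
  if p = 0 then Real.sqrt τ else
    Real.sqrt (((qq q).factorization p : ℝ) * Real.log p) * ((∏ x ∈ S, ez x₀ p x : ℤ) : ℝ)

/-- the squares of their coordinates -/
noncomputable def ww (q : ℕ) (τ : ℝ) (p : ℕ) : ℝ :=
  if p = 0 then τ else ((qq q).factorization p : ℝ) * Real.log p

theorem prod_ez_sq (x₀ p : ℕ) (S : Finset ℕ) :
    ((∏ x ∈ S, ez x₀ p x : ℤ) : ℝ) * ((∏ x ∈ S, ez x₀ p x : ℤ) : ℝ) = 1 := by
  have h1 : (∏ x ∈ S, ez x₀ p x) * (∏ x ∈ S, ez x₀ p x) = 1 := by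
    rw [← Finset.prod_mul_distrib]
    exact Finset.prod_eq_one fun x _ => ez_sq x₀ p x
  exact_mod_cast h1

theorem w_nonneg (q p : ℕ) : 0 ≤ ((qq q).factorization p : ℝ) * Real.log p :=
  mul_nonneg (Nat.cast_nonneg _) (Real.log_natCast_nonneg p)

theorem prod_symm (x₀ p : ℕ) (S S' : Finset ℕ) :
    ((∏ x ∈ S, ez x₀ p x : ℤ) : ℝ) * ((∏ x ∈ S', ez x₀ p x : ℤ) : ℝ) =
      ((∏ x ∈ (S \ S') ∪ (S' \ S), ez x₀ p x : ℤ) : ℝ) := by
  have h1 := Finset.prod_inter_mul_prod_sdiff S S' (fun x => ez x₀ p x)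
  have h2 := Finset.prod_inter_mul_prod_sdiff S' S (fun x => ez x₀ p x)
  have h3 : Disjoint (S \ S') (S' \ S) := disjoint_sdiff_sdiff
  have h4 := prod_ez_sq x₀ p (S ∩ S')
  rw [Finset.prod_union h3, ← h1, ← h2, Finset.inter_comm S' S]
  push_cast at h4 ⊢
  linear_combination (∏ x ∈ S \ S', (ez x₀ p x : ℝ)) * (∏ x ∈ S' \ S, (ez x₀ p x : ℝ)) * h4

/-- the Welch bound -/
theorem welch_K {N q a K r : ℕ} (hN : 2 ≤ N) (hq : 0 < q) (ha : 0 < a) (hqa : Nat.Coprime q a)
    (hK : 1 ≤ K) (hKn : K ≤ (sol N q a).card) (hr : 2 ≤ r)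
    (hL : 12 * (K * (r : ℝ) ^ 2 * Real.log (8 * N)) ≤ Real.log (qq q)) :
    ∑ p ∈ (qq q).primeFactors, (((qq q).factorization p : ℝ) * Real.log p) ^ 2 ≤
      lam q a ^ 2 / ((sol N q a).card.choose K : ℕ) +
        4 * (lam q a / r + 5 * r * Real.log (8 * N) + 3 * K) ^ 2 := by
  classical
  obtain ⟨x₀, hx₀⟩ : (sol N q a).Nonempty := Finset.card_pos.1 (by omega)
  have hN' : (2 : ℝ) ≤ N := by exact_mod_cast hN
  have hr' : (2 : ℝ) ≤ r := by exact_mod_cast hr
  have hl0 : 0 ≤ Real.log (8 * N) := by linarith [log16.trans (log_le hN)]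
  set L : ℝ := Real.log (qq q) with hLdef
  have hLaL : L ≤ lam q a := by
    unfold lam
    exact Real.log_le_log (by exact_mod_cast qq_pos hq) (by exact_mod_cast le_max_left _ _)
  have hL0 : 0 ≤ L := Real.log_natCast_nonneg _
  have hLa0 : 0 ≤ lam q a := hL0.trans hLaL
  set τ : ℝ := lam q a - L with hτ
  have hτ0 : 0 ≤ τ := by linarith
  set m : ℕ := (sol N q a).card.choose K with hm
  have hm1 : 1 ≤ m := Nat.choose_pos hKn
  set T := Finset.powersetCard K (sol N q a) with hT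
  have hTc : T.card = m := Finset.card_powersetCard _ _
  set e : ℝ := lam q a / r + 5 * r * Real.log (8 * N) + 3 * K with he
  have h0 : (0 : ℕ) ∉ (qq q).primeFactors := zero_notMem (qq q)
  have hne0 : ∀ p ∈ (qq q).primeFactors, p ≠ 0 := fun p hp => (Nat.prime_of_mem_primeFactors hp).ne_zero
  have hsumw : ∀ g : ℕ → ℝ, (∀ p ∈ (qq q).primeFactors, g p = ww q τ p) →
      ∑ p ∈ insert 0 (qq q).primeFactors, ww q τ p = ∑ p ∈ (qq q).primeFactors, g p + τ := by
    intro g hg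
    rw [Finset.sum_insert h0, add_comm]
    congr 1
    exact Finset.sum_congr rfl fun p hp => (hg p hp).symm
  have heff := eff T (insert 0 (qq q).primeFactors) (vv q x₀ τ) (ww q τ) (lam q a) (2 * e)
    (by rw [hTc]; exact hm1)
    (by
      intro S _ p _
      unfold vv ww
      split_ifs with h
      · exact Real.sq_sqrt hτ0
      · rw [mul_pow, Real.sq_sqrt (w_nonneg q p), sq ((∏ x ∈ S, ez x₀ p x : ℤ) : ℝ), prod_ez_sq, mul_one])
    (by
      rw [hsumw (fun p => ((qq q).factorization p : ℝ) * Real.log p), ← log_eq (qq_pos hq), ← hLdef, hτ]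
      · ring
      · intro p hp
        unfold ww
        rw [if_neg (hne0 p hp)])
    (by
      intro S hS S' hS' hne
      rw [hT, Finset.mem_powersetCard] at hS hS'
      set k : ℕ := (S \ S').card with hk
      have hk' : (S' \ S).card = k := (Finset.card_sdiff_comm (hS.2.trans hS'.2.symm)).symm
      have hk1 : 1 ≤ k := by
        by_contra hcon
        have h1 : S \ S' = ∅ := Finset.card_eq_zero.1 (by omega)
        rw [Finset.sdiff_eq_empty_iff_subset] at h1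
        exact hne (Finset.eq_of_subset_of_card_le h1 (by rw [hS.2, hS'.2]))
      have hkK : k ≤ K := by
        rw [← hS.2]
        exact Finset.card_le_card Finset.sdiff_subset
      have hkK' : (k : ℝ) ≤ K := by exact_mod_cast hkK
      have hIs : (S \ S') ∪ (S' \ S) ⊆ sol N q a :=
        Finset.union_subset (Finset.sdiff_subset.trans hS.1) (Finset.sdiff_subset.trans hS'.1)
      have hIc : ((S \ S') ∪ (S' \ S)).card = 2 * k := by
        rw [Finset.card_union_of_disjoint disjoint_sdiff_sdiff, hk']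
        omega
      have hor := orth_I hN hq ha hqa hk1 hr hx₀ _ hIs hIc (by
        refine le_trans ?_ hL
        have h1 : (0 : ℝ) ≤ (r : ℝ) ^ 2 * Real.log (8 * N) := by positivity
        nlinarith)
      have hip : ∑ p ∈ insert 0 (qq q).primeFactors, vv q x₀ τ S p * vv q x₀ τ S' p =
          ∑ p ∈ (qq q).primeFactors, (((qq q).factorization p : ℝ) * Real.log p) *
            ((∏ x ∈ (S \ S') ∪ (S' \ S), ez x₀ p x : ℤ) : ℝ) + τ := by
        rw [Finset.sum_insert h0, add_comm]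
        congr 1
        · refine Finset.sum_congr rfl fun p hp => ?_
          unfold vv
          rw [if_neg (hne0 p hp), if_neg (hne0 p hp), ← prod_symm]
          have := Real.mul_self_sqrt (w_nonneg q p)
          linear_combination ((∏ x ∈ S, ez x₀ p x : ℤ) : ℝ) * ((∏ x ∈ S', ez x₀ p x : ℤ) : ℝ) * this
        · unfold vv
          rw [if_pos rfl, if_pos rfl]
          exact Real.mul_self_sqrt hτ0
      rw [hip]
      refine hor.trans ?_
      rw [he]
      linarith)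
  have hwsq : ∑ p ∈ insert 0 (qq q).primeFactors, ww q τ p ^ 2 =
      ∑ p ∈ (qq q).primeFactors, (((qq q).factorization p : ℝ) * Real.log p) ^ 2 + τ ^ 2 := by
    rw [Finset.sum_insert h0, add_comm]
    congr 1
    · refine Finset.sum_congr rfl fun p hp => ?_
      unfold ww
      rw [if_neg (hne0 p hp)]
  rw [hwsq, hTc] at heff
  have hm0 : (0 : ℝ) < m := by exact_mod_cast hm1
  set s2 : ℝ := ∑ p ∈ (qq q).primeFactors, (((qq q).factorization p : ℝ) * Real.log p) ^ 2 with hs2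
  have h5 : (m : ℝ) * s2 ≤ m * (lam q a ^ 2 / m + 4 * e ^ 2) := by
    have h6 : (m : ℝ) * (lam q a ^ 2 / m + 4 * e ^ 2) = lam q a ^ 2 + m * (4 * e ^ 2) := by
      field_simp
    rw [h6]
    nlinarith [sq_nonneg τ, sq_nonneg e]
  exact le_of_mul_le_mul_left h5 hm0

end Pool.Agent.W8ef934h40
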