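import Mathlib
import Pool.Prelude.Def_F_e853f830
import Pool.Agent.W_8ef934_h40.Sgn

/-!
MP_8ef934_nt (helper40): choice of the parameters and the main inequality.
-/

set_option autoImplicit false
open Necdea073 Pool.Agent.W8ef934h95

namespace Pool.Agent.W8ef934h40

/-- two squares bound the first term -/
theorem lam_le {N q a : ℕ} (hN : 2 ≤ N) (hq : 0 < q) (h2 : 2 ≤ (sol N q a).card) :
    lam q a ≤ 2 * Real.log (qq q) + 2 * Real.log (8 * N) := by
  obtain ⟨x, y, hx, hy, hxy⟩ : ∃ x y, x ∈ sol N q a ∧ y ∈ sol N q a ∧ x < y := by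
    obtain ⟨x, hx, y, hy, hne⟩ := Finset.one_lt_card.1 (show 1 < (sol N q a).card by omega)
    rcases lt_or_gt_of_ne hne with h | h
    · exact ⟨x, y, hx, hy, h⟩
    · exact ⟨y, x, hy, hx, h⟩
  obtain ⟨n1, -, h1⟩ := mem_sol.1 hx
  obtain ⟨n2, hn2, h3⟩ := mem_sol.1 hy
  have h4 : 2 * x ≤ q * N := by
    have h5 : q * n2 ≤ q * N := Nat.mul_le_mul_left q hn2.le
    obtain ⟨d, rfl⟩ : ∃ d, y = x + 1 + d := ⟨y - (x + 1), by omega⟩
    nlinarith
  have h5 : uu q * x ≤ 2 * (qq q * N) := by
    have h6 := uu_mul q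
    have h7 : uu q * (2 * x) ≤ uu q * (q * N) := Nat.mul_le_mul_left _ h4
    rw [← mul_assoc (uu q) q N, h6] at h7
    linarith
  have h6 : uu q * a ≤ (8 * N * qq q) ^ 2 := by
    have h7 : a ≤ x * x := by omega
    have h8 : 1 ≤ uu q := uu_pos q
    calc uu q * a ≤ uu q * (x * x) := Nat.mul_le_mul_left _ h7
      _ ≤ (uu q * x) * (uu q * x) := by nlinarith [Nat.zero_le (x * x)]
      _ ≤ (2 * (qq q * N)) * (2 * (qq q * N)) := Nat.mul_le_mul h5 h5
      _ ≤ (8 * N * qq q) ^ 2 := by nlinarith [Nat.zero_le (qq q * N * (qq q * N))]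
  have hq1 := qq_pos hq
  have h7 : qq q ≤ (8 * N * qq q) ^ 2 := by
    have h8 : 1 ≤ 8 * N := by omega
    have h9 : qq q ≤ 8 * N * qq q := Nat.le_mul_of_pos_left _ (by omega)
    nlinarith
  have hN' : (2 : ℝ) ≤ N := by exact_mod_cast hN
  have hq1' : (0 : ℝ) < qq q := by exact_mod_cast hq1
  unfold lam
  have h8 : (0 : ℝ) < (max (qq q) (uu q * a) : ℕ) := by
    exact_mod_cast lt_of_lt_of_le hq1 (le_max_left _ _)
  have h9 : ((max (qq q) (uu q * a) : ℕ) : ℝ) ≤ (8 * N * (qq q : ℝ)) ^ 2 := by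
    exact_mod_cast max_le h7 h6
  refine (Real.log_le_log h8 h9).trans (le_of_eq ?_)
  rw [Real.log_pow, Real.log_mul (by positivity) (by positivity)]
  push_cast
  ring

/-- the choice of `r` -/
theorem params {K l L La : ℝ} (hK : 1 ≤ K) (hl : 2.77 ≤ l) (hL : 48 * (K * l) ≤ L) (hLa0 : 0 ≤ La)
    (hLa : La ≤ 3 * L) : ∃ r : ℕ, 2 ≤ r ∧ 12 * (K * (r : ℝ) ^ 2 * l) ≤ L ∧
      4 * (La / r + 5 * r * l + 3 * K) ^ 2 ≤ 2028 * (K * l * L) := by
  have hKl : 0 < K * l := by positivity
  have hL0 : 0 < L := by linarith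
  set s : ℝ := Real.sqrt (L / (12 * (K * l))) with hs
  have hs2 : s ^ 2 = L / (12 * (K * l)) := Real.sq_sqrt (by positivity)
  have hLs : L = 12 * (K * l) * s ^ 2 := by
    rw [hs2]
    field_simp
  have hs0 : 0 ≤ s := Real.sqrt_nonneg _
  have hs2' : 2 ≤ s := by
    apply Real.le_sqrt_of_sq_le
    rw [le_div_iff₀ (by positivity)]
    linarith
  refine ⟨⌊s⌋₊, ?_, ?_, ?_⟩
  · apply Nat.le_floor
    exact_mod_cast hs2'
  · have h1 : ((⌊s⌋₊ : ℕ) : ℝ) ≤ s := Nat.floor_le hs0
    have h2 : ((⌊s⌋₊ : ℕ) : ℝ) ^ 2 ≤ s ^ 2 := pow_le_pow_left₀ (Nat.cast_nonneg _) h1 2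
    have h3 := mul_le_mul_of_nonneg_left h2 hKl.le
    rw [hLs]
    linarith
  · have h1 : ((⌊s⌋₊ : ℕ) : ℝ) ≤ s := Nat.floor_le hs0
    have h2 : s < ((⌊s⌋₊ : ℕ) : ℝ) + 1 := Nat.lt_floor_add_one s
    have h3 : (2 : ℝ) ≤ ((⌊s⌋₊ : ℕ) : ℝ) := by
      exact_mod_cast Nat.le_floor (by exact_mod_cast hs2')
    set r : ℝ := ((⌊s⌋₊ : ℕ) : ℝ) with hr
    have h4 : La / r ≤ 72 * (K * l * s) := by
      rw [div_le_iff₀ (by linarith)]
      have h5 : s ≤ 2 * r := by linarith
      have h6 : La ≤ 36 * (K * l) * s ^ 2 := by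
        rw [hLs] at hLa
        linarith
      have h7 : K * l * s * s ≤ K * l * s * (2 * r) :=
        mul_le_mul_of_nonneg_left h5 (by positivity)
      nlinarith
    have h5 : 5 * r * l ≤ 5 * (K * l * s) := by
      have h6 : r * l ≤ s * l := mul_le_mul_of_nonneg_right h1 (by linarith)
      have h7 : s * l ≤ K * (s * l) := le_mul_of_one_le_left (by positivity) hK
      nlinarith
    have h6 : 3 * K ≤ K * l * s := by
      have h7 : 3 ≤ l * s := by nlinarith
      nlinarith
    have h7 : La / r + 5 * r * l + 3 * K ≤ 78 * (K * l * s) := by linarith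
    have h8 : 0 ≤ La / r + 5 * r * l + 3 * K := by positivity
    have h9 : (La / r + 5 * r * l + 3 * K) ^ 2 ≤ (78 * (K * l * s)) ^ 2 := pow_le_pow_left₀ h8 h7 2
    have h10 : 2028 * (K * l * L) = 4 * (78 * (K * l * s)) ^ 2 := by
      rw [hLs]
      ring
    linarith

/-- the inequality for the modulus without common factors with `4` -/
theorem main_qq {N q a K : ℕ} (hN : 2 ≤ N) (hq : 0 < q) (ha : 0 < a) (hqa : Nat.Coprime q a)
    (hK : 1 ≤ K) (hKn : K ≤ (sol N q a).card) :
    ∑ p ∈ (qq q).primeFactors, (((qq q).factorization p : ℝ) * Real.log p) ^ 2 ≤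
      9 * (Real.log (qq q) ^ 2 / ((sol N q a).card.choose K : ℕ)) +
        2028 * (K * Real.log (8 * N) * Real.log (qq q)) := by
  have hK' : (1 : ℝ) ≤ K := by exact_mod_cast hK
  have hl := log16.trans (log_le hN)
  set l : ℝ := Real.log (8 * N) with hldef
  set L : ℝ := Real.log (qq q) with hLdef
  have hL0 : 0 ≤ L := Real.log_natCast_nonneg _
  have hm1 : 1 ≤ (sol N q a).card.choose K := Nat.choose_pos hKn
  have hm1' : (1 : ℝ) ≤ ((sol N q a).card.choose K : ℕ) := by exact_mod_cast hm1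
  -- the trivial bound
  have htriv : ∑ p ∈ (qq q).primeFactors, (((qq q).factorization p : ℝ) * Real.log p) ^ 2 ≤ L ^ 2 := by
    rw [hLdef, log_eq (qq_pos hq)]
    exact Finset.sum_sq_le_sq_sum_of_nonneg fun p _ => w_nonneg q p
  by_cases h1 : 48 * (K * l) ≤ L
  · by_cases h2 : 2 ≤ (sol N q a).card
    · have hLaL : L ≤ lam q a := by
        unfold lam
        exact Real.log_le_log (by exact_mod_cast qq_pos hq) (by exact_mod_cast le_max_left _ _)
      have hla := lam_le hN hq h2
      rw [← hldef, ← hLdef] at hla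
      have hKl : l ≤ K * l := le_mul_of_one_le_left (by linarith) hK'
      obtain ⟨r, hr, hr1, hr2⟩ := params hK' hl h1 (hL0.trans hLaL) (by linarith : lam q a ≤ 3 * L)
      have h3 := welch_K hN hq ha hqa hK hKn hr hr1
      rw [← hldef] at h3
      have h4 : lam q a ^ 2 / ((sol N q a).card.choose K : ℕ) ≤
          9 * (L ^ 2 / ((sol N q a).card.choose K : ℕ)) := by
        rw [mul_div_assoc']
        apply div_le_div_of_nonneg_right _ (by linarith)
        have h5 : lam q a ^ 2 ≤ (3 * L) ^ 2 := pow_le_pow_left₀ (hL0.trans hLaL) (by linarith) 2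
        linarith
      linarith
    · have h3 : (sol N q a).card = 1 := by omega
      have h4 : K = 1 := by omega
      subst h4
      rw [h3]
      have h5 : 0 ≤ l * L := by positivity
      simp only [Nat.choose_self, Nat.cast_one, div_one, one_mul]
      nlinarith
  · push Not at h1
    have h2 : L ^ 2 ≤ 48 * (K * l) * L := by nlinarith
    have h3 : 0 ≤ L ^ 2 / ((sol N q a).card.choose K : ℕ) := by positivity
    have h4 : 0 ≤ K * l * L := by positivity
    linarith

theorem fact_le {q p : ℕ} (hq : 0 < q) (hp : p.Prime) :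
    q.factorization p ≤ (if p = 2 then 2 else 0) + (qq q).factorization p := by
  have h1 : q ∣ 4 * qq q := ⟨uu q, by rw [mul_comm q, uu_mul]⟩
  have h2 : (4 * qq q).factorization = (4 : ℕ).factorization + (qq q).factorization :=
    Nat.factorization_mul (by norm_num) (qq_pos hq).ne'
  have h3 := (Nat.factorization_le_iff_dvd hq.ne' (Nat.mul_pos (by norm_num) (qq_pos hq)).ne').2 h1 p
  rw [h2, Finsupp.add_apply] at h3
  have h4 : (4 : ℕ).factorization p = if p = 2 then 2 else 0 := by
    rw [show (4 : ℕ) = 2 ^ 2 by norm_num, Nat.Prime.factorization_pow Nat.prime_two]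
    by_cases h : p = 2
    · subst h; simp
    · rw [if_neg h, Finsupp.single_apply, if_neg (Ne.symm h)]
  rwa [h4] at h3

/-- **the main inequality** -/
theorem main {N q a K : ℕ} (hN : 2 ≤ N) (hq : 0 < q) (ha : 0 < a) (hqa : Nat.Coprime q a)
    (hKn : K ≤ Q N q a) :
    ∑ p ∈ q.primeFactors, Real.log ((p : ℝ) ^ (q.factorization p)) ^ 2 ≤
      10 ^ 5 * Real.log q * (Real.log q / ((Q N q a).choose K : ℕ) + K * Real.log N) := by
  rw [← card_sol (N := N) (a := a) hq] at hKn ⊢
  have hpl : ∀ p ∈ q.primeFactors, Real.log ((p : ℝ) ^ (q.factorization p)) =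
      (q.factorization p : ℝ) * Real.log p := fun p _ => Real.log_pow _ _
  rw [Finset.sum_congr rfl fun p hp => by rw [hpl p hp]]
  have hN' : (2 : ℝ) ≤ N := by exact_mod_cast hN
  have hlN : Real.log 2 ≤ Real.log N := Real.log_le_log (by norm_num) hN'
  have hl2 : 0 < Real.log 2 := Real.log_pos (by norm_num)
  have hL0 : 0 ≤ Real.log q := Real.log_natCast_nonneg _
  have hm1 : 1 ≤ (sol N q a).card.choose K := Nat.choose_pos hKn
  have hm1' : (1 : ℝ) ≤ ((sol N q a).card.choose K : ℕ) := by exact_mod_cast hm1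
  rcases Nat.eq_zero_or_pos K with hK | hK
  · subst hK
    simp only [Nat.choose_zero_right, Nat.cast_one, div_one, Nat.cast_zero, zero_mul, add_zero]
    have h1 : ∑ p ∈ q.primeFactors, ((q.factorization p : ℝ) * Real.log p) ^ 2 ≤ Real.log q ^ 2 := by
      conv_rhs => rw [log_eq hq]
      exact Finset.sum_sq_le_sq_sum_of_nonneg fun p _ =>
        mul_nonneg (Nat.cast_nonneg _) (Real.log_natCast_nonneg p)
    nlinarith [mul_nonneg hL0 hL0]
  have hK' : (1 : ℝ) ≤ K := by exact_mod_cast hK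
  have hmain := main_qq hN hq ha hqa hK hKn
  -- comparison of the weights
  have h1 : ∀ p ∈ q.primeFactors, ((q.factorization p : ℝ) * Real.log p) ^ 2 ≤
      9 * (((qq q).factorization p : ℝ) * Real.log p) ^ 2 + (if p = 2 then 4 * Real.log 2 ^ 2 else 0) := by
    intro p hp
    have hpp := Nat.prime_of_mem_primeFactors hp
    have h2 := fact_le hq hpp
    have h3 : (q.factorization p : ℝ) ≤ (if p = 2 then 2 else 0) + ((qq q).factorization p : ℝ) := by
      have h4 : ((q.factorization p : ℕ) : ℝ) ≤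
          (((if p = 2 then 2 else 0) + (qq q).factorization p : ℕ) : ℝ) := by exact_mod_cast h2
      refine h4.trans (le_of_eq ?_)
      push_cast
      rfl
    have hlp : 0 ≤ Real.log p := Real.log_natCast_nonneg p
    have hf0 : (0 : ℝ) ≤ q.factorization p := Nat.cast_nonneg _
    by_cases hp2 : p = 2
    · subst hp2
      rw [if_pos rfl] at h3 ⊢
      rcases Nat.eq_zero_or_pos ((qq q).factorization 2) with h5 | h5
      · rw [h5] at h3 ⊢
        push_cast at h3 ⊢
        have h6 : ((q.factorization 2 : ℝ)) ^ 2 ≤ 2 ^ 2 := pow_le_pow_left₀ hf0 (by linarith) 2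
        have h7 : (0 : ℝ) ≤ Real.log 2 ^ 2 := sq_nonneg _
        nlinarith
      · have h6 : (1 : ℝ) ≤ ((qq q).factorization 2 : ℝ) := by exact_mod_cast h5
        have h7 : ((q.factorization 2 : ℝ)) ^ 2 ≤ (3 * ((qq q).factorization 2 : ℝ)) ^ 2 :=
          pow_le_pow_left₀ hf0 (by linarith) 2
        push_cast
        have h8 : (0 : ℝ) ≤ Real.log 2 ^ 2 := sq_nonneg _
        nlinarith
    · rw [if_neg hp2] at h3 ⊢
      have h6 : ((q.factorization p : ℝ)) ^ 2 ≤ (((qq q).factorization p : ℝ)) ^ 2 :=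
        pow_le_pow_left₀ hf0 (by linarith) 2
      have h7 : (0 : ℝ) ≤ Real.log p ^ 2 := sq_nonneg _
      have h8 : (0 : ℝ) ≤ (((qq q).factorization p : ℝ)) ^ 2 := sq_nonneg _
      nlinarith [mul_nonneg h8 h7]
  have h2 : ∑ p ∈ q.primeFactors, ((q.factorization p : ℝ) * Real.log p) ^ 2 ≤
      9 * ∑ p ∈ (qq q).primeFactors, (((qq q).factorization p : ℝ) * Real.log p) ^ 2 +
        4 * (Real.log q * (K * Real.log N)) := by
    refine (Finset.sum_le_sum h1).trans ?_
    rw [Finset.sum_add_distrib, ← Finset.mul_sum]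
    refine add_le_add ?_ ?_
    · refine mul_le_mul_of_nonneg_left (le_of_eq ?_) (by norm_num)
      symm
      refine Finset.sum_subset (Nat.primeFactors_mono (qq_dvd q) hq.ne') fun p hp hp' => ?_
      have h3 : (qq q).factorization p = 0 := by
        rw [← Finsupp.notMem_support_iff, Nat.support_factorization]
        exact hp'
      rw [h3]
      simp
    · rw [Finset.sum_ite_eq']
      split_ifs with h3
      · have h4 : 2 ≤ q := Nat.le_of_dvd hq (Nat.dvd_of_mem_primeFactors h3)
        have h5 : Real.log 2 ≤ Real.log q := Real.log_le_log (by norm_num) (by exact_mod_cast h4)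
        have h6 : Real.log 2 ≤ K * Real.log N := by nlinarith
        have h7 : Real.log 2 * Real.log 2 ≤ Real.log q * (K * Real.log N) :=
          mul_le_mul h5 h6 hl2.le hL0
        nlinarith
      · have h5 : 0 ≤ Real.log N := by linarith
        positivity
  -- comparison of the logarithms
  have h3 : Real.log (qq q) ≤ Real.log q :=
    Real.log_le_log (by exact_mod_cast qq_pos hq) (by exact_mod_cast Nat.le_of_dvd hq (qq_dvd q))
  have h30 : 0 ≤ Real.log (qq q) := Real.log_natCast_nonneg _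
  have h4 : Real.log (8 * N) ≤ 4 * Real.log N := by
    have h5 : (8 : ℝ) * N ≤ (N : ℝ) ^ 4 := by
      have : (8 : ℝ) ≤ (N : ℝ) ^ 3 := by
        calc (8 : ℝ) = 2 ^ 3 := by norm_num
          _ ≤ (N : ℝ) ^ 3 := pow_le_pow_left₀ (by norm_num) hN' 3
      nlinarith
    have h6 := Real.log_le_log (by positivity) h5
    rw [Real.log_pow] at h6
    exact_mod_cast h6
  have h5 : Real.log (qq q) ^ 2 / ((sol N q a).card.choose K : ℕ) ≤
      Real.log q * (Real.log q / ((sol N q a).card.choose K : ℕ)) := by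
    rw [mul_div_assoc']
    apply div_le_div_of_nonneg_right _ (by linarith)
    nlinarith
  have h6 : K * Real.log (8 * N) * Real.log (qq q) ≤ 4 * (Real.log q * (K * Real.log N)) := by
    have h7 : (K : ℝ) * Real.log (8 * N) ≤ K * (4 * Real.log N) :=
      mul_le_mul_of_nonneg_left h4 (by linarith)
    have h8 : 0 ≤ (K : ℝ) * (4 * Real.log N) := by
      have : 0 ≤ Real.log N := by linarith
      positivity
    calc K * Real.log (8 * N) * Real.log (qq q) ≤ K * (4 * Real.log N) * Real.log q :=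
          mul_le_mul h7 h3 h30 h8
      _ = 4 * (Real.log q * (K * Real.log N)) := by ring
  have h7 : 0 ≤ Real.log q * (Real.log q / ((sol N q a).card.choose K : ℕ)) := by positivity
  have h8 : 0 ≤ Real.log q * (K * Real.log N) := by
    have : 0 ≤ Real.log N := by linarith
    positivity
  calc ∑ p ∈ q.primeFactors, ((q.factorization p : ℝ) * Real.log p) ^ 2
      ≤ 9 * (9 * (Real.log (qq q) ^ 2 / ((sol N q a).card.choose K : ℕ)) +
        2028 * (K * Real.log (8 * N) * Real.log (qq q))) + 4 * (Real.log q * (K * Real.log N)) := by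
        linarith
    _ ≤ 10 ^ 5 * Real.log q * (Real.log q / ((sol N q a).card.choose K : ℕ) + K * Real.log N) := by
        nlinarith

end Pool.Agent.W8ef934h40
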