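import Mathlib
import Pool.Prelude.Def_F_e853f830
import Pool.Agent.W_8ef934_h95.Low
import Pool.Agent.W_8ef934_h95.Main2
import Pool.Agent.W_8ef934_h40.Fin

/-!
MP_8ef934_nt (helper40): consequences of the main inequality.
-/

set_option autoImplicit false
open Necdea073 Pool.Agent.W8ef934h95

namespace Pool.Agent.W8ef934h40

theorem choose_ge (K : ℕ) : ∀ n : ℕ, K ≤ n → ((n : ℝ) / K) ^ K ≤ (n.choose K : ℕ) := by
  induction K with
  | zero => intro n _; simp
  | succ K ih =>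
    intro n hn
    obtain ⟨m, rfl⟩ : ∃ m, n = m + 1 := ⟨n - 1, by omega⟩
    have hm : K ≤ m := by omega
    have h1 := Nat.add_one_mul_choose_eq m K
    have h1' : ((m : ℝ) + 1) * (m.choose K : ℕ) = ((m + 1).choose (K + 1) : ℕ) * ((K : ℝ) + 1) := by
      exact_mod_cast h1
    have h2 := ih m hm
    have h3 : (((m : ℝ) + 1) / ((K : ℝ) + 1)) ^ K ≤ ((m : ℝ) / K) ^ K := by
      rcases Nat.eq_zero_or_pos K with h | h
      · subst h; simp
      · have hK0 : (0 : ℝ) < K := by exact_mod_cast h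
        apply pow_le_pow_left₀ (by positivity)
        rw [div_le_div_iff₀ (by positivity) hK0]
        have : (K : ℝ) ≤ m := by exact_mod_cast hm
        nlinarith
    have h4 := h3.trans h2
    rw [pow_succ]
    push_cast
    rw [mul_div_assoc', div_le_iff₀ (by positivity), ← h1', mul_comm ((m : ℝ) + 1)]
    exact mul_le_mul_of_nonneg_right h4 (by positivity)

/-- moduli which are not smooth on average contain few squares -/
theorem few (ε : ℝ) (hε : 0 < ε) : ∃ C : ℝ, 0 < C ∧ ∀ N q a : ℕ, 2 ≤ N → 3 ≤ q → 1 ≤ a →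
    Nat.Coprime q a →
    C * Real.log q * (Real.log N + Real.log (Real.log q)) ≤
      ∑ p ∈ q.primeFactors, Real.log ((p : ℝ) ^ (q.factorization p)) ^ 2 →
    (Q N q a : ℝ) ≤ C * (N : ℝ) ^ ε * (1 + Real.log (Real.log q)) := by
  refine ⟨10 ^ 5 * (1 / ε + 5), by positivity, fun N q a hN hq ha hqa hS => ?_⟩
  by_contra hcon
  push Not at hcon
  have hN' : (2 : ℝ) ≤ N := by exact_mod_cast hN
  have hq' : (3 : ℝ) ≤ q := by exact_mod_cast hq
  have hl2 := Real.log_two_gt_d9
  set lN : ℝ := Real.log N with hlN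
  have hlN2 : Real.log 2 ≤ lN := Real.log_le_log (by norm_num) hN'
  set L : ℝ := Real.log q with hL
  have hL1 : 1 < L := by
    rw [hL, Real.lt_log_iff_exp_lt (by linarith)]
    have := Real.exp_one_lt_d9
    linarith
  set ll : ℝ := Real.log L with hll
  have hll0 : 0 < ll := Real.log_pos hL1
  set n : ℝ := (Q N q a : ℝ) with hn
  set K : ℕ := ⌈ll / (ε * lN)⌉₊ + 1 with hK
  have hlNpos : 0 < lN := by linarith
  have hx0 : 0 < ll / (ε * lN) := by positivity
  have hKx : ll / (ε * lN) ≤ K := by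
    rw [hK]
    push_cast
    have := Nat.le_ceil (ll / (ε * lN))
    linarith
  have hKx2 : (K : ℝ) ≤ ll / (ε * lN) + 2 := by
    rw [hK]
    push_cast
    have := Nat.ceil_lt_add_one hx0.le
    linarith
  have hK1 : 1 ≤ K := by omega
  have hK1' : (1 : ℝ) ≤ K := by exact_mod_cast hK1
  have hNe : 1 ≤ (N : ℝ) ^ ε := Real.one_le_rpow (by linarith) hε.le
  have hdiv : ll / (ε * lN) ≤ 2 / ε * ll := by
    rw [div_mul_eq_mul_div, div_le_div_iff₀ (by positivity) hε]
    have h1 : ε * ll * 1 ≤ ε * ll * (2 * lN) := mul_le_mul_of_nonneg_left (by linarith) (by positivity)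
    linarith
  have hKC : (K : ℝ) ≤ 10 ^ 5 * (1 / ε + 5) * (1 + ll) := by
    have h1 : 0 < 1 / ε := by positivity
    have h2 : 2 / ε = 2 * (1 / ε) := by ring
    rw [h2] at hdiv
    nlinarith [mul_pos h1 hll0]
  have hKn : (K : ℝ) * (N : ℝ) ^ ε ≤ n := by
    refine le_trans ?_ hcon.le
    calc (K : ℝ) * (N : ℝ) ^ ε ≤ (10 ^ 5 * (1 / ε + 5) * (1 + ll)) * (N : ℝ) ^ ε :=
          mul_le_mul_of_nonneg_right hKC (by linarith)
      _ = 10 ^ 5 * (1 / ε + 5) * (N : ℝ) ^ ε * (1 + ll) := by ring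
  have hKn' : K ≤ Q N q a := by
    have h1 : (K : ℝ) ≤ n := by nlinarith
    rw [hn] at h1
    exact Nat.cast_le.1 h1
  have hmain := main hN (by omega) ha hqa hKn'
  have hch := choose_ge K (Q N q a) hKn'
  have h1 : L ≤ ((Q N q a).choose K : ℕ) := by
    refine le_trans ?_ hch
    have h2 : (N : ℝ) ^ ε ≤ (Q N q a : ℝ) / K := by
      rw [le_div_iff₀ (by linarith), mul_comm]
      exact hKn
    have h3 : ((N : ℝ) ^ ε) ^ K ≤ ((Q N q a : ℝ) / K) ^ K := pow_le_pow_left₀ (by positivity) h2 K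
    refine le_trans ?_ h3
    have h4 : ((N : ℝ) ^ ε) ^ K = Real.exp (lN * ε * K) := by
      rw [← Real.rpow_natCast, ← Real.rpow_mul (by positivity), Real.rpow_def_of_pos (by linarith),
        ← hlN]
      congr 1
      ring
    rw [h4, ← Real.log_le_iff_le_exp (by linarith), ← hll]
    rw [div_le_iff₀ (by positivity)] at hKx
    linarith
  have hch0 : (0 : ℝ) < ((Q N q a).choose K : ℕ) := by linarith
  have h2 : L / ((Q N q a).choose K : ℕ) ≤ 1 := by
    rw [div_le_one hch0]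
    exact h1
  have h3 : K * lN ≤ 1 / ε * ll + 2 * lN := by
    have h4 : (ll / (ε * lN) + 2) * lN = 1 / ε * ll + 2 * lN := by field_simp
    rw [← h4]
    exact mul_le_mul_of_nonneg_right hKx2 hlNpos.le
  have h4 : L / ((Q N q a).choose K : ℕ) + K * lN < (1 / ε + 5) * (lN + ll) := by
    have h5 : 0 < 1 / ε := by positivity
    nlinarith [mul_pos h5 hlNpos]
  have h5 : 10 ^ 5 * L * (L / ((Q N q a).choose K : ℕ) + K * lN) <
      10 ^ 5 * L * ((1 / ε + 5) * (lN + ll)) := mul_lt_mul_of_pos_left h4 (by linarith)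
  have h6 : 10 ^ 5 * (1 / ε + 5) * L * (lN + ll) = 10 ^ 5 * L * ((1 / ε + 5) * (lN + ll)) := by ring
  linarith

/-- numerical facts for large `N` -/
theorem ev (δ η : ℝ) (hδ : 0 < δ) (hη : 0 < η) : ∀ᶠ N : ℕ in Filter.atTop, 30 ≤ N ∧
    2 ≤ (N : ℝ) ^ δ ∧ 2 / η ≤ Real.log N ∧ 4 ≤ Real.log N := by
  have h1 : Filter.Tendsto (fun N : ℕ => (N : ℝ) ^ δ) Filter.atTop Filter.atTop :=
    (tendsto_rpow_atTop hδ).comp tendsto_natCast_atTop_atTop
  have h2 : Filter.Tendsto (fun N : ℕ => Real.log N) Filter.atTop Filter.atTop :=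
    Real.tendsto_log_atTop.comp tendsto_natCast_atTop_atTop
  filter_upwards [Filter.eventually_ge_atTop 30, h1.eventually_ge_atTop 2,
    h2.eventually_ge_atTop (2 / η), h2.eventually_ge_atTop 4] with N a1 a2 a3 a4
  exact ⟨a1, a2, a3, a4⟩

/-- the extremal moduli other than `24` are smooth on average and have many prime factors -/
theorem extremal (δ : ℝ) (hδ0 : 0 < δ) (hδ : δ < 1 / 2) : ∃ c : ℝ, 0 < c ∧ ∃ N₀ : ℕ, ∀ N ≥ N₀,
    ∀ q a : ℕ, IsNontrivial q a → q ≠ 24 → Q N 24 1 ≤ Q N q a →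
    c * ∑ p ∈ q.primeFactors, Real.log ((p : ℝ) ^ (q.factorization p)) ^ 2 ≤
      Real.log q * (Real.log (Real.log q) + Real.log q * Real.exp (-(N : ℝ) ^ δ)) ∧
    c * min (Real.log q / Real.log (Real.log q)) (Real.exp ((N : ℝ) ^ δ)) ≤ (q.primeFactors.card : ℝ) := by
  set η : ℝ := 1 / 2 - δ with hη
  have hη0 : 0 < η := by linarith
  have hcs : (1 / 2 : ℝ) < Real.sqrt (2 / 3) := by
    apply Real.lt_sqrt_of_sq_lt
    norm_num
  obtain ⟨N₁, hN₁⟩ := main_size (1 / 2) hcs
  obtain ⟨N₂, hN₂⟩ := Filter.eventually_atTop.1 (ev δ η hδ0 hη0)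
  set c₁ : ℝ := 1 / (10 ^ 5 * (1 / η + 3)) with hc₁
  have hc₁0 : 0 < c₁ := by positivity
  refine ⟨c₁ / 2, by positivity, max N₁ N₂, fun N hN q a hnt h24 hle => ?_⟩
  obtain ⟨hN30, hNδ, hlogη, hlog4⟩ := hN₂ N (le_trans (le_max_right _ _) hN)
  have hsize : 1 / 2 * Real.sqrt N * Real.log N < Real.log q := by
    by_contra hcon
    push Not at hcon
    exact absurd (hN₁ N (le_trans (le_max_left _ _) hN) q a hnt h24 hcon) (not_lt.2 hle)
  obtain ⟨hq, ha, hqa, -⟩ := hnt
  have hN30' : (30 : ℝ) ≤ N := by exact_mod_cast hN30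
  have hN0 : (0 : ℝ) < N := by linarith
  set lN : ℝ := Real.log N with hlN
  set L : ℝ := Real.log q with hL
  have hsqrt1 : (1 : ℝ) ≤ Real.sqrt N := by
    rw [Real.one_le_sqrt]
    linarith
  have hsqrtpos : 0 < Real.sqrt N := by linarith
  have hLbig : Real.sqrt N ≤ L := by
    have h1 : Real.sqrt N * 4 ≤ Real.sqrt N * lN := mul_le_mul_of_nonneg_left hlog4 hsqrtpos.le
    linarith
  have hLpos : 0 < L := by linarith
  set ll : ℝ := Real.log L with hll
  have hll1 : lN / 2 ≤ ll := by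
    have h1 := Real.log_le_log hsqrtpos hLbig
    rw [Real.log_sqrt hN0.le] at h1
    exact h1
  have hll2 : 2 ≤ ll := by linarith
  -- the number of squares
  set n : ℕ := Q N q a with hn
  have hnbig : Real.sqrt N ≤ (n : ℝ) := by
    have h1 := low N (by omega)
    have h2 : (Q N 24 1 : ℝ) ≤ n := by exact_mod_cast hle
    have h3 : Real.sqrt (8 * N / 3) = Real.sqrt (8 / 3) * Real.sqrt N := by
      rw [← Real.sqrt_mul (by norm_num)]
      congr 1
      ring
    have h4 : (1.63 : ℝ) ≤ Real.sqrt (8 / 3) := by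
      apply Real.le_sqrt_of_sq_le
      norm_num
    have h5 : (5 : ℝ) ≤ Real.sqrt N := by
      apply Real.le_sqrt_of_sq_le
      linarith
    rw [h3] at h1
    have h6 : 1.63 * Real.sqrt N ≤ Real.sqrt (8 / 3) * Real.sqrt N :=
      mul_le_mul_of_nonneg_right h4 hsqrtpos.le
    linarith
  -- the parameter
  set x : ℝ := min (ll / (η * lN)) ((N : ℝ) ^ δ - 1) with hx
  have hlN0 : 0 < lN := by linarith
  have hx0 : 0 < x := lt_min (by positivity) (by linarith)
  set K : ℕ := ⌈x⌉₊ with hK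
  have hK1 : 1 ≤ K := Nat.one_le_iff_ne_zero.2 (Nat.ceil_pos.2 hx0).ne'
  have hK1' : (1 : ℝ) ≤ K := by exact_mod_cast hK1
  have hxK : x ≤ K := Nat.le_ceil x
  have hKx : (K : ℝ) ≤ x + 1 := (Nat.ceil_lt_add_one hx0.le).le
  have hKδ : (K : ℝ) ≤ (N : ℝ) ^ δ := by
    have := min_le_right (ll / (η * lN)) ((N : ℝ) ^ δ - 1)
    linarith
  have hsplit : (N : ℝ) ^ δ * (N : ℝ) ^ η = Real.sqrt N := by
    rw [← Real.rpow_add hN0, Real.sqrt_eq_rpow]
    congr 1
    rw [hη]
    ring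
  have hNη1 : 1 ≤ (N : ℝ) ^ η := Real.one_le_rpow (by linarith) hη0.le
  have hKn : (K : ℝ) * (N : ℝ) ^ η ≤ n := by
    refine le_trans ?_ hnbig
    rw [← hsplit]
    exact mul_le_mul_of_nonneg_right hKδ (by linarith)
  have hKn' : K ≤ n := by
    have h2 : (K : ℝ) * 1 ≤ K * (N : ℝ) ^ η := mul_le_mul_of_nonneg_left hNη1 (by linarith)
    have h1 : (K : ℝ) ≤ n := by linarith
    exact_mod_cast h1
  have hmain := main (N := N) (by omega) hq ha hqa hKn'
  rw [← hn] at hmain
  have hch := choose_ge K n hKn'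
  have hexp : Real.exp (η * lN * x) ≤ (n.choose K : ℕ) := by
    refine le_trans ?_ hch
    have h2 : (N : ℝ) ^ η ≤ (n : ℝ) / K := by
      rw [le_div_iff₀ (by linarith), mul_comm]
      exact hKn
    have h3 : ((N : ℝ) ^ η) ^ K ≤ ((n : ℝ) / K) ^ K := pow_le_pow_left₀ (by positivity) h2 K
    refine le_trans ?_ h3
    have h4 : ((N : ℝ) ^ η) ^ K = Real.exp (lN * η * K) := by
      rw [← Real.rpow_natCast, ← Real.rpow_mul hN0.le, Real.rpow_def_of_pos hN0, ← hlN]
      congr 1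
      ring
    rw [h4, Real.exp_le_exp]
    have h5 := mul_le_mul_of_nonneg_left hxK (show 0 ≤ η * lN by positivity)
    linarith
  have hch0 : (0 : ℝ) < (n.choose K : ℕ) := lt_of_lt_of_le (Real.exp_pos _) hexp
  have hexp0 := Real.exp_pos (-(N : ℝ) ^ δ)
  -- the first term
  have h1 : L / (n.choose K : ℕ) ≤ 1 + L * Real.exp (-(N : ℝ) ^ δ) := by
    have h2 : L / (n.choose K : ℕ) ≤ L / Real.exp (η * lN * x) :=
      div_le_div_of_nonneg_left hLpos.le (Real.exp_pos _) hexp
    refine h2.trans ?_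
    rcases min_choice (ll / (η * lN)) ((N : ℝ) ^ δ - 1) with h3 | h3
    · have h4 : η * lN * x = ll := by
        rw [hx, h3]
        field_simp
      rw [h4, hll, Real.exp_log hLpos, div_self hLpos.ne']
      have : 0 ≤ L * Real.exp (-(N : ℝ) ^ δ) := by positivity
      linarith
    · have h4 : (N : ℝ) ^ δ ≤ η * lN * x := by
        rw [hx, h3]
        have h5 : 2 ≤ η * lN := by
          rw [div_le_iff₀ hη0] at hlogη
          linarith
        have h6 : 2 * ((N : ℝ) ^ δ - 1) ≤ η * lN * ((N : ℝ) ^ δ - 1) :=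
          mul_le_mul_of_nonneg_right h5 (by linarith)
        linarith
      have h5 : Real.exp ((N : ℝ) ^ δ) ≤ Real.exp (η * lN * x) := Real.exp_le_exp.2 h4
      have h6 : L / Real.exp (η * lN * x) ≤ L / Real.exp ((N : ℝ) ^ δ) :=
        div_le_div_of_nonneg_left hLpos.le (Real.exp_pos _) h5
      rw [Real.exp_neg, ← div_eq_mul_inv]
      linarith
  -- the second term
  have h2 : K * lN ≤ 1 / η * ll + 2 * ll := by
    have h3 : x ≤ ll / (η * lN) := min_le_left _ _
    have h4 : (K : ℝ) * lN ≤ (ll / (η * lN) + 1) * lN :=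
      mul_le_mul_of_nonneg_right (by linarith) hlN0.le
    have h5 : (ll / (η * lN) + 1) * lN = 1 / η * ll + lN := by field_simp
    rw [h5] at h4
    linarith
  set S : ℝ := ∑ p ∈ q.primeFactors, Real.log ((p : ℝ) ^ (q.factorization p)) ^ 2 with hS
  set E : ℝ := Real.exp (-(N : ℝ) ^ δ) with hE
  have h3 : S ≤ 10 ^ 5 * (1 / η + 3) * (L * (ll + L * E)) := by
    refine hmain.trans ?_
    have h4 : L / (n.choose K : ℕ) + K * lN ≤ (1 / η + 3) * (ll + L * E) := by
      have h5 : 0 < 1 / η := by positivity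
      have h6 : 0 < L * E := by positivity
      have h7 := mul_pos h5 h6
      have e : (1 / η + 3) * (ll + L * E) = 1 / η * ll + 3 * ll + 1 / η * (L * E) + 3 * (L * E) := by ring
      rw [e]
      linarith
    calc 10 ^ 5 * L * (L / (n.choose K : ℕ) + K * lN) ≤ 10 ^ 5 * L * ((1 / η + 3) * (ll + L * E)) :=
          mul_le_mul_of_nonneg_left h4 (by positivity)
      _ = _ := by ring
  have h4 : c₁ * S ≤ L * (ll + L * E) := by
    rw [hc₁, one_div, inv_mul_le_iff₀ (by positivity)]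
    exact h3
  have hS0 : 0 ≤ S := Finset.sum_nonneg fun _ _ => sq_nonneg _
  have hcS : 0 ≤ c₁ * S := mul_nonneg hc₁0.le hS0
  refine ⟨by linarith, ?_⟩
  -- the number of prime factors
  have hw := log_sq_le hq
  have hsqs : sqs q = S := rfl
  rw [hsqs, ← hL] at hw
  set w : ℝ := (q.primeFactors.card : ℝ) with hwdef
  have hw0 : 0 ≤ w := Nat.cast_nonneg _
  have h5 : c₁ * L ≤ w * (ll + L * E) := by
    have h6 : c₁ * L ^ 2 ≤ w * (c₁ * S) := by
      have h9 := mul_le_mul_of_nonneg_left hw hc₁0.le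
      calc c₁ * L ^ 2 ≤ c₁ * (w * S) := h9
        _ = w * (c₁ * S) := by ring
    have h7 : w * (c₁ * S) ≤ w * (L * (ll + L * E)) := mul_le_mul_of_nonneg_left h4 hw0
    have h8 : L * (c₁ * L) ≤ L * (w * (ll + L * E)) := by
      calc L * (c₁ * L) = c₁ * L ^ 2 := by ring
        _ ≤ w * (L * (ll + L * E)) := h6.trans h7
        _ = L * (w * (ll + L * E)) := by ring
    exact le_of_mul_le_mul_left h8 hLpos
  set t : ℝ := min (L / ll) (Real.exp ((N : ℝ) ^ δ)) with ht
  have ht1 : t ≤ L / ll := min_le_left _ _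
  have ht2 : t ≤ Real.exp ((N : ℝ) ^ δ) := min_le_right _ _
  have ht0 : 0 < t := lt_min (div_pos hLpos (by linarith)) (Real.exp_pos _)
  have h6 : ll * t ≤ L := by
    rw [le_div_iff₀ (by linarith)] at ht1
    linarith
  have h7 : L * E * t ≤ L := by
    have h8 : E * t ≤ 1 := by
      calc E * t ≤ E * Real.exp ((N : ℝ) ^ δ) := mul_le_mul_of_nonneg_left ht2 (Real.exp_pos _).le
        _ = 1 := by rw [hE, ← Real.exp_add]; simp
    calc L * E * t = L * (E * t) := by ring
      _ ≤ L * 1 := mul_le_mul_of_nonneg_left h8 hLpos.le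
      _ = L := mul_one L
  have h8 : L * (c₁ / 2 * t) ≤ L * w := by
    have h9 : c₁ * L * t ≤ w * (ll + L * E) * t := mul_le_mul_of_nonneg_right h5 ht0.le
    have h10 : w * (ll + L * E) * t ≤ w * (2 * L) := by
      have : (ll + L * E) * t ≤ 2 * L := by
        have e : (ll + L * E) * t = ll * t + L * E * t := by ring
        rw [e]
        linarith
      calc w * (ll + L * E) * t = w * ((ll + L * E) * t) := by ring
        _ ≤ w * (2 * L) := mul_le_mul_of_nonneg_left this hw0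
    calc L * (c₁ / 2 * t) = (c₁ * L * t) / 2 := by ring
      _ ≤ (w * (2 * L)) / 2 := by linarith
      _ = L * w := by ring
  exact le_of_mul_le_mul_left h8 hLpos

end Pool.Agent.W8ef934h40
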